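import Pool.Agent.H56.HR.CHR
import Pool.Agent.H47.NM.INF

/-!
# Module CHF: in the families the Herman rings are in the plane (CHR of H56/HR without change of chart)
-/

set_option autoImplicit false

open Filter Topology Polynomial Metric Set MeasureTheory

namespace Pool.Agent.H56.HF

open Pool.Agent.H44.Fatou Pool.Agent.H32.BT Pool.Agent.H79.Eul Pool.Agent.H79.Par
open Pool.Agent.H35.EX Pool.Agent.H44.RR Pool.Agent.H61.TT Pool.Agent.H56.HR
open Pool.Agent.H79.GP Pool.Agent.H47.NM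

theorem fam_deg {d m : ℕ} {v0 : E d} (hF : Fam d m v0) :
    max (pol v0.1).natDegree (pol v0.2).natDegree = d := by
  rw [hF.ha, hF.hb]
  exact max_eq_left (Nat.sub_le _ _)

/-- a neighbourhood of infinity which the rings do not meet -/
theorem outF {d m : ℕ} {v0 : E d} (hF : Fam d m v0) {A : Set (OnePoint ℂ)}
    {p : ℕ} {l : ℂ} {ψ : ℂ → OnePoint ℂ} {r R : ℝ} (h : SRing (Rf v0) A p l ψ r R) :
    ∃ O : Set (OnePoint ℂ), IsOpen O ∧ OnePoint.infty ∈ O ∧ ∀ j : ℕ, ∀ w ∈ Ann r R,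
      (Rf v0)^[j] (ψ w) ∉ O := by
  obtain ⟨-, ⟨-, -, U, hU, hUc⟩, -⟩ := inf_sink hF one_pos
  have hfixp := (inf_sink hF h.hp).1
  refine ⟨interior U, isOpen_interior, mem_interior_iff_mem_nhds.2 hU, ?_⟩
  intro j w hw hj
  have h1 := hUc _ (interior_subset hj)
  have h2 : Tendsto (fun k : ℕ => (Rf v0)^[k + j] (ψ w)) atTop (𝓝 OnePoint.infty) := by
    refine h1.congr fun k => ?_
    rw [one_mul, Function.iterate_add_apply]
  have h3 : Tendsto (fun k : ℕ => (Rf v0)^[k] (ψ w)) atTop (𝓝 OnePoint.infty) :=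
    (tendsto_add_atTop_iff_nat (f := fun k : ℕ => (Rf v0)^[k] (ψ w)) j).1 h2
  have h4 : Tendsto (fun k : ℕ => ψ (l ^ k * w)) atTop (𝓝 OnePoint.infty) := by
    have h5 : Tendsto (fun k : ℕ => p * k) atTop atTop := tendsto_id.const_mul_atTop' h.hp
    refine (h3.comp h5).congr fun k => ?_
    exact sr_rot h k hw
  have hnorm : ∀ k : ℕ, ‖l ^ k * w‖ = ‖w‖ := fun k => by
    rw [norm_mul, norm_pow, h.rotl.nor, one_pow, one_mul]
  obtain ⟨w', hw', σ, hσ, hlim⟩ := (isCompact_sphere (0 : ℂ) ‖w‖).tendsto_subseq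
    (x := fun k : ℕ => l ^ k * w) (fun k => mem_sphere_zero_iff_norm.2 (hnorm k))
  have hw'A : w' ∈ Ann r R := by
    rw [mem_sphere_zero_iff_norm] at hw'
    unfold Ann at hw ⊢
    rw [mem_ofPred_eq] at hw ⊢
    rw [hw']
    exact hw
  have h6 : Tendsto (fun k : ℕ => ψ (l ^ σ k * w)) atTop (𝓝 (ψ w')) :=
    (so_cont (h.hol w' hw'A)).tendsto.comp hlim
  have h7 : ψ w' = OnePoint.infty :=
    tendsto_nhds_unique h6 (h4.comp hσ.tendsto_atTop)
  have h8 := h.rot w' hw'A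
  rw [h7, hfixp, ← h7] at h8
  have h9 := h.bij.injOn hw'A (rot_ann h.rotl hw'A) h8
  have hw0 : w' ≠ 0 := by
    rintro rfl
    have := hw'A.1
    rw [norm_zero] at this
    exact absurd h.hr (not_lt.2 this.le)
  apply h.rotl.irr 1 one_pos
  rw [pow_one]
  have h10 : (l - 1) * w' = 0 := by linear_combination -h9
  rcases mul_eq_zero.1 h10 with h11 | h11
  · exact sub_eq_zero.1 h11
  · exact absurd h11 hw0

theorem chrF {d m : ℕ} (hd : 2 ≤ d) {v0 : E d} (hF : Fam d m v0) {A : Set (OnePoint ℂ)} {p : ℕ}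
    {l : ℂ} {ψ : ℂ → OnePoint ℂ} {r R : ℝ} (h : SRing (Rf v0) A p l ψ r R) :
    ∃ ψ1 : ℂ → ℂ, Ring v0 p l ψ1 r R ∧ ∀ w ∈ Ann r R, ψ w = ((ψ1 w : ℂ) : OnePoint ℂ) := by
  have hcop := hF.cop
  have hdeg := fam_deg hF
  obtain ⟨O, hOo, hOi, hO⟩ := outF hF h
  have hd1 : 1 ≤ max (pol v0.1).natDegree (pol v0.2).natDegree := by rw [hdeg]; omega
  have hf : Continuous (Rf v0) := rat_continuous hcop
  have ho : IsOpenMap (Rf v0) := rat_open hcop hd1
  have hfin0 : ∀ w ∈ Ann r R, ∀ j : ℕ, (Rf v0)^[j] (ψ w) ≠ OnePoint.infty := by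
    intro w hw j he
    apply hO j w hw
    rw [he]
    exact hOi
  have hex : ∀ w ∈ Ann r R, ∃ y : ℂ, (y : OnePoint ℂ) = ψ w := fun w hw =>
    OnePoint.ne_infty_iff_exists.1 (hfin0 w hw 0)
  choose! ψ1 hψ1 using hex
  have hψ : ∀ w ∈ Ann r R, ψ w = ((ψ1 w : ℂ) : OnePoint ℂ) := fun w hw => (hψ1 w hw).symm
  have hop : IsOpen (Ann r R) := isOpen_Ann r R
  have hψd : DifferentiableOn ℂ ψ1 (Ann r R) := by
    intro w hw
    refine DifferentiableAt.differentiableWithinAt ?_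
    obtain ⟨g, hg, hgw⟩ := h.hol w hw
    have hA : ∀ᶠ z in 𝓝 w, z ∈ Ann r R := hop.mem_nhds hw
    rcases hgw with hgw | hgw
    · have e : ψ1 =ᶠ[𝓝 w] g := by
        filter_upwards [hgw, hA] with z hz hzA
        rw [hψ z hzA] at hz
        exact OnePoint.coe_injective hz
      exact hg.differentiableAt.congr_of_eventuallyEq e
    · have hg0 : g w ≠ 0 := by
        intro h0
        have h1 := hgw.self_of_nhds
        rw [h0] at h1
        unfold recip at h1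
        rw [if_pos rfl] at h1
        exact hfin0 w hw 0 h1
      have e : ψ1 =ᶠ[𝓝 w] fun z => (g z)⁻¹ := by
        filter_upwards [hgw, hA, hg.continuousAt.eventually_ne hg0] with z hz hzA hz0
        rw [hψ z hzA] at hz
        unfold recip at hz
        rw [if_neg hz0] at hz
        exact OnePoint.coe_injective hz
      exact (hg.differentiableAt.inv hg0).congr_of_eventuallyEq e
  have hfin : ∀ w ∈ Ann r R, ∀ j : ℕ,
      (Rf v0)^[j] ((ψ1 w : ℂ) : OnePoint ℂ) ≠ OnePoint.infty := by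
    intro w hw j
    rw [← hψ w hw]
    exact hfin0 w hw j
  have hkey : ∀ w ∈ Ann r R, ∀ j : ℕ,
      (Rf v0)^[j] (ψ w) = ((psi v0 ψ1 j w : ℂ) : OnePoint ℂ) := by
    intro w hw j
    rw [hψ w hw]
    exact (orb_all (hfin w hw)).2 j
  have hlim : ∀ ρ : ℝ, ρ = r ∨ ρ = R → ∀ (u : ℕ → ℂ) (z0 : ℂ), (∀ n, u n ∈ Ann r R) →
      Tendsto (fun n => ‖u n‖) atTop (𝓝 ρ) → Tendsto (fun n => ψ1 (u n)) atTop (𝓝 z0) →
      JP v0 z0 := by
    intro ρ hρ u z0 hu hn hz
    have h1 : Tendsto (fun n => ((ψ1 (u n) : ℂ) : OnePoint ℂ)) atTop (𝓝 (z0 : OnePoint ℂ)) :=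
      (OnePoint.continuous_coe.tendsto z0).comp hz
    have h3 : Tendsto (fun n => ψ (u n)) atTop (𝓝 (z0 : OnePoint ℂ)) := by
      refine h1.congr fun n => ?_
      rw [hψ _ (hu n)]
    exact jpt hd hcop hdeg (emn hd hcop hdeg (lmt h hu hρ hn h3))
  refine ⟨ψ1, ⟨⟨hd, hcop, hdeg⟩, h.hp, h.rotl, h.hr, h.hrR, hψd, ?_, ?_, ?_, ?_,
    hlim r (Or.inl rfl), hlim R (Or.inr rfl)⟩, hψ⟩
  · intro j w hw
    exact ((orb_all (hfin w hw)).1 (j + 1) j (Nat.lt_succ_self j)).1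
  · intro i hi j hj w hw w' hw' he
    apply sr_inj hf ho h hi hj hw hw'
    rw [hkey w hw i, hkey w' hw' j, he]
  · intro w hw
    apply OnePoint.coe_injective
    rw [← hkey w hw p, h.rot w hw]
    exact hψ (l * w) (rot_ann h.rotl hw)
  · -- boundedness
    have h1 := ((OnePoint.isOpen_iff_of_mem hOi).1 hOo).2
    obtain ⟨M, hM⟩ := h1.isBounded.exists_norm_le
    refine ⟨M, fun w hw => hM _ ?_⟩
    have h2 := hO 0 w hw
    rw [Function.iterate_zero, id, hψ w hw] at h2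
    exact h2

end Pool.Agent.H56.HF
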