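import Pool.Agent.H56.HF.EXL

/-!
# Module HOF: many nearby maps of the family have no orbit which stays in a given compact part of the ring (HOL of H56/HR)
-/

set_option autoImplicit false

open Filter Topology Polynomial Metric Set MeasureTheory

namespace Pool.Agent.H56.HF

open Pool.Agent.H44.Fatou Pool.Agent.H32.BT Pool.Agent.H79.Eul Pool.Agent.H79.Par Pool.Agent.H61.TT
open Pool.Agent.H56.HR Pool.Agent.H79.GP Pool.Agent.H47.NM

variable {d k : ℕ} {x0 : Em d k} {p : ℕ} {l : ℂ} {ψ : ℂ → ℂ} {r R : ℝ}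

theorem hol_posF (h : Ring (ex d k x0) p l ψ r R) (hF : Fam d k (ex d k x0)) {s : ℝ} (hs : r < s) (hs' : s < R) :
    ∃ (c : ℝ) (H : Set (Em d k)), 0 < c ∧ MeasurableSet H ∧ H ⊆ ball (0 : Em d k) 1 ∧ 0 < volume H ∧
      ∀ w ∈ H, c < (LA (ex d k x0) p ψ s (xi (ex d k x0) (ex d k w))).re := by
  let m : Em d k →ₗ[ℂ] ℂ :=
    { toFun := fun u => LA (ex d k x0) p ψ s (xi (ex d k x0) (ex d k u))
      map_add' := fun u v => by
        rw [ex_add]
        exact la_xi_add h hs hs' (ex d k u) (ex d k v)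
      map_smul' := fun c u => by
        rw [ex_smul, la_xi_smul h hs hs', RingHom.id_apply, smul_eq_mul] }
  have hm : ∀ u, m u = LA (ex d k x0) p ψ s (xi (ex d k x0) (ex d k u)) := fun u => rfl
  have hmc : Continuous m := LinearMap.continuous_of_finiteDimensional m
  obtain ⟨w0, hw0, hu0⟩ := trvF h hF hs hs'
  obtain ⟨u0, rfl⟩ := dm_ex hF.hm hF.hmd hw0
  rw [← hm] at hu0
  -- a vector of norm less than one with positive real part
  obtain ⟨t, ht⟩ : ∃ t : ℝ, t = 1 / (2 * (‖u0‖ + 1) * ‖m u0‖) := ⟨_, rfl⟩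
  have hmu : 0 < ‖m u0‖ := norm_pos_iff.2 hu0
  have ht0 : 0 < t := by
    rw [ht]
    have := norm_nonneg u0
    positivity
  obtain ⟨u1, hu1⟩ : ∃ u1 : Em d k, u1 = ((t : ℂ) * (starRingEnd ℂ) (m u0)) • u0 := ⟨_, rfl⟩
  have e1 : m u1 = ((t * ‖m u0‖ ^ 2 : ℝ) : ℂ) := by
    rw [hu1, map_smul, smul_eq_mul, mul_assoc, mul_comm ((starRingEnd ℂ) (m u0)), Complex.mul_conj,
      Complex.normSq_eq_norm_sq]
    push_cast
    ring
  have e2 : ‖u1‖ < 1 := by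
    rw [hu1, norm_smul, norm_mul, Complex.norm_real, RCLike.norm_conj, Real.norm_of_nonneg ht0.le]
    have h3 : t * ‖m u0‖ = 1 / (2 * (‖u0‖ + 1)) := by
      rw [ht]
      have := norm_nonneg u0
      field_simp
    rw [h3, div_mul_eq_mul_div, one_mul, div_lt_one (by have := norm_nonneg u0; positivity)]
    have := norm_nonneg u0
    linarith
  have e3 : 0 < (m u1).re := by
    rw [e1, Complex.ofReal_re]
    positivity
  obtain ⟨H, hH⟩ : ∃ H : Set (Em d k), H = ball (0 : Em d k) 1 ∩ {w | (m u1).re / 2 < (m w).re} := ⟨_, rfl⟩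
  have hHo : IsOpen H := by
    rw [hH]
    exact isOpen_ball.inter (isOpen_lt continuous_const (Complex.continuous_re.comp hmc))
  refine ⟨(m u1).re / 2, H, by linarith, hHo.measurableSet, ?_, ?_, ?_⟩
  · rw [hH]
    exact inter_subset_left
  · refine hHo.measure_pos volume ⟨u1, ?_⟩
    rw [hH]
    refine ⟨mem_ball_zero_iff.2 e2, ?_⟩
    show (m u1).re / 2 < (m u1).re
    linarith
  · intro w hw
    rw [hH] at hw
    exact hw.2

theorem holF (h : Ring (ex d k x0) p l ψ r R) (hF : Fam d k (ex d k x0)) {K : Set ℂ} (hK : IsCompact K) (hKs : K ⊆ ψ '' Ann r R) :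
    ∃ c0 : ENNReal, 0 < c0 ∧ ∀ᶠ ρ in 𝓝[>] (0 : ℝ), ∃ H : Set (Em d k), MeasurableSet H ∧
      H ⊆ ball (0 : Em d k) 1 ∧ c0 ≤ volume H ∧ ∀ w ∈ H, ¬ ∃ z : OnePoint ℂ, ∀ n : ℕ,
        (Rf (ex d k (x0 + ρ • w)))^[p * n] z ∈ ((↑) : ℂ → OnePoint ℂ) '' K := by
  obtain ⟨s1, s2, h1, -, h2, hK12⟩ := hol_cpt h hK hKs
  obtain ⟨s, hs, hs'⟩ := exists_between h.hrR
  obtain ⟨c, H, hc, hHm, hHb, hHv, hHc⟩ := hol_posF h hF hs hs'
  obtain ⟨δ, hδ, hdrf⟩ := drf h hs hs' h1 h2 (ε := c / 2) (by linarith)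
  have hsub : CAn s1 s2 ⊆ Ann r R := can_sub h1 h2
  have hKc : IsCompact (ψ '' CAn s1 s2) := (isCompact_CAn s1 s2).image_of_continuousOn
    fun w hw => (psi_hd h 0 (hsub hw)).continuousAt.continuousWithinAt
  obtain ⟨C0, η0, hC0, hη0, hexp⟩ := exp1 (v0 := ex d k x0) hKc p (by
    rintro j - _ ⟨w, hw, rfl⟩
    exact h.fin j w (hsub hw))
  refine ⟨volume H, hHv, ?_⟩
  filter_upwards [Ioo_mem_nhdsGT (lt_min hδ hη0)] with ρ hρ
  obtain ⟨hρ0, hρ1⟩ := hρ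
  refine ⟨H, hHm, hHb, le_rfl, ?_⟩
  rintro w hw ⟨z, hz⟩
  have hwn : ‖w‖ < 1 := mem_ball_zero_iff.1 (hHb hw)
  obtain ⟨u, hu⟩ : ∃ u : E d, u = ex d k (ρ • w) := ⟨_, rfl⟩
  have hpv : ex d k (x0 + ρ • w) = ex d k x0 + u := by
    rw [hu, ex_add]
  have hun : ‖u‖ < ρ := by
    rw [hu]
    refine (ex_norm _).trans_lt ?_
    rw [norm_smul, Real.norm_of_nonneg hρ0.le]
    nlinarith
  have hu1 : ‖u‖ < δ := hun.trans (hρ1.trans_le (min_le_left _ _))
  have hu2 : ‖u‖ ≤ η0 := (hun.trans (hρ1.trans_le (min_le_right _ _))).le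
  have hch : ∀ n : ℕ, ∃ x ∈ CAn s1 s2, (Rf (ex d k x0 + u))^[p * n] z = ((ψ x : ℂ) : OnePoint ℂ) := by
    intro n
    have h3 := hz n
    rw [hpv] at h3
    obtain ⟨y, hy, hye⟩ := h3
    obtain ⟨x, hx, rfl⟩ := hK12 hy
    exact ⟨x, hx, hye.symm⟩
  choose x hx hxe using hch
  have hstep : ∀ n, it (ex d k x0 + u) p (ψ (x n)) = ψ (x (n + 1)) := by
    intro n
    obtain ⟨hpole, -, -⟩ := hexp u hu2 (ψ (x n)) ⟨x n, hx n, rfl⟩
    have h3 := hxe (n + 1)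
    have e : p * (n + 1) = p + p * n := by ring
    rw [e, Function.iterate_add_apply, hxe n, rat_it hpole] at h3
    exact OnePoint.coe_injective h3
  have h4 := hdrf u hu1 ⟨x, hx, hstep⟩
  have h5 : LA (ex d k x0) p ψ s (xi (ex d k x0) u) =
      (ρ : ℂ) * LA (ex d k x0) p ψ s (xi (ex d k x0) (ex d k w)) := by
    have e : u = (ρ : ℂ) • ex d k w := by
      rw [hu, RCLike.real_smul_eq_coe_smul (K := ℂ), ex_smul]
      rfl
    rw [e, la_xi_smul h hs hs']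
  have h6 : (LA (ex d k x0) p ψ s (xi (ex d k x0) u)).re = ρ * (LA (ex d k x0) p ψ s (xi (ex d k x0) (ex d k w))).re := by
    rw [h5, Complex.re_ofReal_mul]
  have h7 := hHc w hw
  have h8 : ρ * c < (LA (ex d k x0) p ψ s (xi (ex d k x0) u)).re := by
    rw [h6]
    exact mul_lt_mul_of_pos_left h7 hρ0
  have h9 := le_abs_self (LA (ex d k x0) p ψ s (xi (ex d k x0) u)).re
  have h10 : c / 2 * ‖u‖ ≤ c / 2 * ρ := by gcongr
  nlinarith

end Pool.Agent.H56.HF
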