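import Pool.Agent.H56.HF.RDA
import Pool.Agent.H56.RD.FAT

/-!
# Module RDB: rotation domains in the plane, and Herman rings (SCH, FAT of H56/RD with `AR`)
-/

set_option autoImplicit false

open Filter Topology Polynomial Metric Set MeasureTheory

namespace Pool.Agent.H56.HF

open Pool.Agent.H44.Fatou Pool.Agent.H32.BT Pool.Agent.H79.Eul Pool.Agent.H79.Par
open Pool.Agent.H35.EX Pool.Agent.H44.RR Pool.Agent.H56.HR Pool.Agent.H44.RC Pool.Agent.H47.RJ Pool.Agent.H56.RD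

variable {d : ℕ} {v : E d}

theorem to_plane_ar (hd : 2 ≤ d) (hcop : IsCoprime (pol v.1) (pol v.2))
    (hdeg : max (pol v.1).natDegree (pol v.2).natDegree = d) (hN : AR v)
    {A : Set (OnePoint ℂ)} {p : ℕ} {b : ℕ → ℕ} (h : Cyl (Rf v) A p b) :
    ∃ (s : ℂ) (φ : OnePoint ℂ ≃ₜ OnePoint ℂ) (V : Set ℂ) (F : ℂ → ℂ),
      φ (s : OnePoint ℂ) = OnePoint.infty ∧
      (∀ z : ℂ, z ≠ s → φ (z : OnePoint ℂ) = (((z - s)⁻¹ : ℂ) : OnePoint ℂ)) ∧
      φ OnePoint.infty = ((0 : ℂ) : OnePoint ℂ) ∧ φ '' A = ((↑) : ℂ → OnePoint ℂ) '' V ∧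
      (∀ z ∈ V, φ ((Rf v)^[p] (φ.symm (z : OnePoint ℂ))) = (F z : OnePoint ℂ)) ∧
      Dom V F b ∧ ¬ Punct V F := by
  have hd1 : 1 ≤ d := by omega
  obtain ⟨O, hO, hOn, hOA⟩ := out_ex hd hcop hdeg h
  obtain ⟨s, φ, hsO, hφs, hφz, hφi, hconj, -⟩ := chart_ex hd hcop hdeg hO hOn
  obtain ⟨hcop', hdeg', hcj⟩ := hconj v hcop hdeg
  have hmemA : ∀ x, x ∈ φ '' A ↔ φ.symm x ∈ A := by
    intro x
    constructor
    · rintro ⟨a, ha, rfl⟩
      rw [φ.symm_apply_apply]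
      exact ha
    · intro hx
      exact ⟨_, hx, φ.apply_symm_apply x⟩
  have hBop : IsOpen (φ '' A) := φ.isOpenMap _ h.op
  have hdis : ∀ x, x ∈ φ '' A → x ∉ φ '' O := by
    rintro x ⟨a, ha, rfl⟩ ⟨o, ho, hoa⟩
    have h1 : o = a := φ.injective hoa
    rw [h1] at ho
    exact disjoint_left.1 hOA ho ha
  have hinf : OnePoint.infty ∉ φ '' A := fun h1 => hdis _ h1 ⟨s, hsO, hφs⟩
  obtain ⟨V, hV⟩ : ∃ V : Set ℂ, V = ((↑) : ℂ → OnePoint ℂ) ⁻¹' (φ '' A) := ⟨_, rfl⟩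
  have hmemV : ∀ z : ℂ, z ∈ V ↔ φ.symm (z : OnePoint ℂ) ∈ A := fun z => by
    rw [hV, mem_preimage, hmemA]
  have hBV : φ '' A = ((↑) : ℂ → OnePoint ℂ) '' V := by
    rw [hV, image_preimage_eq_of_subset]
    intro x hx
    induction x using OnePoint.rec with
    | infty => exact absurd hx hinf
    | coe z => exact ⟨z, rfl⟩
  have hVop : IsOpen V := by
    rw [hV]
    exact hBop.preimage OnePoint.continuous_coe
  have hVpc : IsPreconnected V := by
    have h1 : IsPreconnected (φ '' A) := h.pc.image _ φ.continuous.continuousOn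
    rw [hBV] at h1
    exact (OnePoint.isOpenEmbedding_coe.isInducing.isPreconnected_image).1 h1
  have hVne : V.Nonempty := by
    have h1 : (φ '' A).Nonempty := h.ne.image _
    rw [hBV] at h1
    exact image_nonempty.1 h1
  have hVbd : Bornology.IsBounded V := by
    have h1 : φ '' O ∈ 𝓝 (OnePoint.infty : OnePoint ℂ) :=
      (φ.isOpenMap _ hO).mem_nhds ⟨s, hsO, hφs⟩
    obtain ⟨K, ⟨-, hK⟩, hKU⟩ := OnePoint.hasBasis_nhds_infty.mem_iff.1 h1
    refine hK.isBounded.subset fun z hz => ?_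
    by_contra hzK
    have h2 : (z : OnePoint ℂ) ∈ φ '' O := hKU (Or.inl ⟨z, hzK, rfl⟩)
    rw [hV] at hz
    exact hdis _ hz h2
  obtain ⟨j, hj⟩ : ∃ j : OnePoint ℂ → ℂ, ∀ z : ℂ, j (z : OnePoint ℂ) = z :=
    ⟨fun x => x.elim 0 id, fun z => rfl⟩
  obtain ⟨F, hF⟩ : ∃ F : ℂ → ℂ, ∀ z, F z = j (φ ((Rf v)^[p] (φ.symm (z : OnePoint ℂ)))) :=
    ⟨_, fun z => rfl⟩
  have hmap : ∀ z ∈ V, F z ∈ V ∧ φ ((Rf v)^[p] (φ.symm (z : OnePoint ℂ))) = (F z : OnePoint ℂ) := by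
    intro z hz
    have h1 : φ ((Rf v)^[p] (φ.symm (z : OnePoint ℂ))) ∈ φ '' A :=
      ⟨_, h.bj.mapsTo ((hmemV z).1 hz), rfl⟩
    rw [hBV] at h1
    obtain ⟨w, hw, h2⟩ := h1
    have h3 : F z = w := by rw [hF, ← h2, hj]
    rw [h3]
    exact ⟨hw, h2.symm⟩
  have hFV : ∀ z ∈ V, φ ((Rf v)^[p] (φ.symm (z : OnePoint ℂ))) = (F z : OnePoint ℂ) :=
    fun z hz => (hmap z hz).2
  have hiter : ∀ (m : ℕ), ∀ z ∈ V, F^[m] z ∈ V ∧
      (F^[m] z : OnePoint ℂ) = φ (((Rf v)^[p])^[m] (φ.symm (z : OnePoint ℂ))) := by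
    intro m
    induction m with
    | zero =>
      intro z hz
      refine ⟨hz, ?_⟩
      show (z : OnePoint ℂ) = φ (φ.symm (z : OnePoint ℂ))
      rw [φ.apply_symm_apply]
    | succ m ih =>
      intro z hz
      obtain ⟨h1, h2⟩ := ih z hz
      rw [Function.iterate_succ_apply', Function.iterate_succ_apply']
      refine ⟨(hmap _ h1).1, ?_⟩
      rw [← hFV _ h1, h2, φ.symm_apply_apply]
  refine ⟨s, φ, V, F, hφs, hφz, hφi, hBV, hFV, ⟨hVop, hVpc, hVne, hVbd, ?_, ⟨?_, ?_, ?_⟩, h.tb, ?_, ?_⟩, ?_⟩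
  · -- holomorphic
    obtain ⟨P, Q, hPQ, -, hr⟩ := Pool.Agent.H79.PJ.rat_iter hcop' (by
      unfold dg
      rw [hdeg']
      exact hd1) p
    have h1 : ∀ z ∈ V, Q.eval z ≠ 0 ∧ F z = P.eval z / Q.eval z := by
      intro z hz
      have h2 : rat P Q (z : OnePoint ℂ) = (F z : OnePoint ℂ) := by
        rw [← hFV z hz, ← iter_conj φ hcj p, φ.apply_symm_apply]
        exact hr _
      rw [rat_coe] at h2
      unfold pt at h2
      split_ifs at h2 with h3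
      · exact absurd h2 (OnePoint.infty_ne_coe _)
      · exact ⟨h3, (OnePoint.coe_injective h2).symm⟩
    exact (P.differentiable.differentiableOn.div Q.differentiable.differentiableOn
      fun z hz => (h1 z hz).1).congr fun z hz => (h1 z hz).2
  · exact fun z hz => (hmap z hz).1
  · intro z hz z' hz' hzz
    have h1 : φ ((Rf v)^[p] (φ.symm (z : OnePoint ℂ))) = φ ((Rf v)^[p] (φ.symm (z' : OnePoint ℂ))) := by
      rw [hFV z hz, hFV z' hz', hzz]
    have h2 := h.bj.injOn ((hmemV z).1 hz) ((hmemV z').1 hz') (φ.injective h1)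
    exact OnePoint.coe_injective (φ.symm.injective h2)
  · intro w hw
    obtain ⟨a, ha, ha2⟩ := h.bj.surjOn ((hmemV w).1 hw)
    have h1 : φ a ∈ φ '' A := ⟨a, ha, rfl⟩
    rw [hBV] at h1
    obtain ⟨z, hz, hz2⟩ := h1
    refine ⟨z, hz, OnePoint.coe_injective ?_⟩
    rw [← hFV z hz, hz2, φ.symm_apply_apply, ha2, φ.apply_symm_apply]
  · -- convergence to the identity
    intro z hz
    rw [OnePoint.isOpenEmbedding_coe.isInducing.tendsto_nhds_iff]
    have hct : Continuous fun w : ℂ => φ.symm (w : OnePoint ℂ) :=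
      φ.symm.continuous.comp OnePoint.continuous_coe
    have h1 : Tendsto (fun w : ℕ × ℂ => φ (((Rf v)^[p])^[b w.1] (φ.symm (w.2 : OnePoint ℂ))))
        (atTop ×ˢ 𝓝 z) (𝓝 (φ (φ.symm (z : OnePoint ℂ)))) :=
      (φ.continuous.tendsto _).comp ((h.id _ ((hmemV z).1 hz)).comp
        (Tendsto.prodMap (tendsto_id (x := (atTop : Filter ℕ))) (hct.tendsto z)))
    rw [φ.apply_symm_apply] at h1
    refine h1.congr' ?_
    have h2 : ∀ᶠ w in 𝓝 z, w ∈ V := hVop.mem_nhds hz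
    filter_upwards [h2.prod_inr (atTop : Filter ℕ)] with w hw
    exact ((hiter (b w.1) w.2 hw).2).symm
  · intro m hm z hz heq
    have h1 := (hiter m z hz).2
    rw [heq] at h1
    have h2 : ((Rf v)^[p])^[m] (φ.symm (z : OnePoint ℂ)) = φ.symm (z : OnePoint ℂ) := by
      apply φ.injective
      rw [← h1, φ.apply_symm_apply]
    exact no_per hd1 hcop hdeg hN h m hm _ ((hmemV z).1 hz) h2
  · rintro ⟨l, ρ, g, hρ, hl, hg, hgd, hgF⟩
    have h0 : DifferentiableAt ℂ g 0 := hg.differentiableAt (isOpen_ball.mem_nhds (mem_ball_self hρ))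
    have h1 : ∀ᶠ w in 𝓝[≠] (0 : ℂ), g w ≠ g 0 := h0.hasDerivAt.eventually_ne hgd
    rw [eventually_nhdsWithin_iff] at h1
    obtain ⟨ρ', hρ', h2⟩ := Metric.eventually_nhds_iff_ball.1 h1
    have hsub : ball (0 : ℂ) (min ρ ρ') ⊆ ball 0 ρ := ball_subset_ball (min_le_left _ _)
    have hsub' : ball (0 : ℂ) (min ρ ρ') ⊆ ball 0 ρ' := ball_subset_ball (min_le_right _ _)
    refine no_punct hd1 hcop hdeg hN h.hp (G := fun w => φ.symm (g w : OnePoint ℂ)) (lt_min hρ hρ') hl ?_ ?_ ?_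
    · exact (φ.symm.continuous.comp OnePoint.continuous_coe).comp_continuousOn
        (hg.continuousOn.mono hsub)
    · intro w hw hw0 heq
      exact h2 w (hsub' hw) hw0 (OnePoint.coe_injective (φ.symm.injective heq))
    · intro w hw hw0
      obtain ⟨h3, h4⟩ := hgF w (hsub hw) hw0
      apply φ.injective
      show φ ((Rf v)^[p] (φ.symm (g w : OnePoint ℂ))) = φ (φ.symm (g (l * w) : OnePoint ℂ))
      rw [hFV _ h3, h4, φ.apply_symm_apply]

/-- a rotation domain of a map all of whose cycles are attracting or repelling is a Herman ring -/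
theorem ring_ex_ar (hd : 2 ≤ d) (hcop : IsCoprime (pol v.1) (pol v.2))
    (hdeg : max (pol v.1).natDegree (pol v.2).natDegree = d) (hN : AR v)
    {q : ℕ} {z0 : OnePoint ℂ} {b : ℕ → ℕ} {ψ0 : OnePoint ℂ → OnePoint ℂ}
    (h0 : RotD (Rf v) q z0 b ψ0) :
    ∃ (A : Set (OnePoint ℂ)) (p : ℕ) (l : ℂ) (ψ : ℂ → OnePoint ℂ) (r R : ℝ),
      SRing (Rf v) A p l ψ r R := by
  obtain ⟨p, b', h⟩ := cyl_ex (by omega) hcop hdeg h0
  obtain ⟨A, hA⟩ : ∃ A, A = Fc (Rf v) z0 := ⟨_, rfl⟩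
  rw [← hA] at h
  obtain ⟨s, φ, V, F, h1, h2, h3, hV, hF, hD, hP⟩ := to_plane_ar hd hcop hdeg hN h
  obtain ⟨l, ψ, r, R, hl, hr, hrR, hψd, hψ, hψF⟩ := rot_dom hD hP
  have hop : IsOpen (Ann r R) := by
    have e : Ann r R = {w : ℂ | r < ‖w‖} ∩ {w : ℂ | ‖w‖ < R} := rfl
    rw [e]
    exact (isOpen_lt continuous_const continuous_norm).inter
      (isOpen_lt continuous_norm continuous_const)
  have hVA : ∀ z ∈ V, φ.symm (z : OnePoint ℂ) ∈ A := by
    intro z hz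
    have h4 : (z : OnePoint ℂ) ∈ φ '' A := by
      rw [hV]
      exact mem_image_of_mem _ hz
    obtain ⟨x, hx, hxz⟩ := h4
    rw [← hxz, Homeomorph.symm_apply_apply]
    exact hx
  refine ⟨A, p, l, fun w => φ.symm (ψ w : OnePoint ℂ), r, R, ?_⟩
  refine ⟨h.comp, h.hp, h.bj.image_eq, h.min, hl, hr, hrR, ⟨?_, ?_, ?_⟩, ?_, ?_⟩
  · exact fun w hw => hVA _ (hψ.mapsTo hw)
  · intro w hw w' hw' he
    exact hψ.injOn hw hw' (OnePoint.coe_injective (φ.symm.injective he))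
  · intro x hx
    have h4 : φ x ∈ ((↑) : ℂ → OnePoint ℂ) '' V := by
      rw [← hV]
      exact mem_image_of_mem _ hx
    obtain ⟨z, hz, hzx⟩ := h4
    obtain ⟨w, hw, hwz⟩ := hψ.surjOn hz
    refine ⟨w, hw, ?_⟩
    change φ.symm (ψ w : OnePoint ℂ) = x
    rw [hwz, hzx, Homeomorph.symm_apply_apply]
  · intro w hw
    exact holo_back h1 h2 h3 (hψd.analyticAt (hop.mem_nhds hw))
  · intro w hw
    change (Rf v)^[p] (φ.symm (ψ w : OnePoint ℂ)) = φ.symm (ψ (l * w) : OnePoint ℂ)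
    rw [← hψF w hw, ← hF _ (hψ.mapsTo hw), Homeomorph.symm_apply_apply]

end Pool.Agent.H56.HF
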