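import Pool.Agent.H56.HF.NHF
import Pool.Agent.H56.HF.CHF
import Pool.Agent.H56.HF.HOF
import Pool.Agent.H56.HF.RDB
import Pool.Agent.H56.HR.CTB
import Pool.Agent.H47.NM.ARM
import Pool.Agent.H47.NM.FIN

/-!
# THEOREM FAT in the families with a fixed point at infinity of local degree at least `k`, `2 ≤ k ≤ d`

`h_mainF`: almost no map of the family has a Herman ring. `fatF`: for almost every map of the family the Fatou set is the union of
the basins of the attracting cycles.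
-/

set_option autoImplicit false

open Filter Topology Polynomial Metric Set MeasureTheory

namespace Pool.Agent.H56.HF

open Pool.Agent.H44.Fatou Pool.Agent.H32.BT Pool.Agent.H79.Eul Pool.Agent.H79.Par
open Pool.Agent.H35.EX Pool.Agent.H44.RR Pool.Agent.H56.HR Pool.Agent.H44.RC Pool.Agent.H47.RJ Pool.Agent.H56.RD
open Pool.Agent.H79.GP Pool.Agent.H47.NM Pool.Agent.H47.NN

/-- the pieces of the exceptional set of the family -/
def SSF (d k p : ℕ) (t : Finset ℕ) (q : ℕ) : Set (Em d k) :=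
  {x | Fam d k (ex d k x) ∧
    ∃ (A : Set (OnePoint ℂ)) (l : ℂ) (ψ : ℂ → OnePoint ℂ) (r R : ℝ),
      SRing (Rf (ex d k x)) A p l ψ r R ∧ R0 t q ⊆ A ∧
        ∃ z : OnePoint ℂ, ∀ n : ℕ, (Rf (ex d k x))^[p * n] z ∈ R0 t q}

theorem ss_nullF {d k : ℕ} (hd : 2 ≤ d) (p : ℕ) (t : Finset ℕ) (q : ℕ) :
    volume (SSF d k p t q) = 0 := by
  haveI : Measure.IsAddHaarMeasure (volume : Measure (Em d k)) :=
    Measure.prod.instIsAddHaarMeasure (volume : Measure (Fin (d + 1) → ℂ))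
      (volume : Measure (Fin (d - k + 1) → ℂ))
  apply null_holes volume
  rintro x ⟨hF, A, l, ψ, r, R, hR, hRA, -⟩
  obtain ⟨ψ1, hring, hψ⟩ := chrF hd hF hR
  obtain ⟨K, hK⟩ : ∃ K : Set ℂ, K = ((↑) : ℂ → OnePoint ℂ) ⁻¹' (R0 t q) := ⟨_, rfl⟩
  have hsub : R0 t q ⊆ ((↑) : ℂ → OnePoint ℂ) '' (ψ1 '' Ann r R) := by
    intro x hx
    have hxA := hRA hx
    rw [← hR.bij.image_eq] at hxA
    obtain ⟨w, hw, rfl⟩ := hxA
    exact ⟨ψ1 w, ⟨w, hw, rfl⟩, (hψ w hw).symm⟩
  have himg : ((↑) : ℂ → OnePoint ℂ) '' K = R0 t q := by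
    rw [hK, Set.image_preimage_eq_inter_range, Set.inter_eq_left]
    intro x hx
    obtain ⟨y, -, hy⟩ := hsub hx
    exact ⟨y, hy⟩
  have hKc : IsCompact K := by
    rw [OnePoint.isOpenEmbedding_coe.isEmbedding.isCompact_iff, himg]
    exact (r0_closed t q).isCompact
  have hKs : K ⊆ ψ1 '' Ann r R := by
    intro x hx
    rw [hK] at hx
    obtain ⟨y, hy, hxy⟩ := hsub hx
    rw [← OnePoint.coe_injective hxy]
    exact hy
  obtain ⟨c0, hc0, hev⟩ := holF hring hF hKc hKs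
  refine ⟨c0, hc0, hev.frequently.mono ?_⟩
  rintro ρ ⟨H, hHm, hHb, hHv, hHz⟩
  refine ⟨H, hHm, hHb, hHv, ?_⟩
  rintro w hw ⟨-, -, -, -, -, -, -, -, z, hz⟩
  apply hHz w hw
  refine ⟨z, fun n => ?_⟩
  rw [himg]
  exact hz n

/-- almost no map of the family has a Herman ring -/
theorem h_mainF {d k : ℕ} (hd : 2 ≤ d) :
    volume {x : Em d k | Fam d k (ex d k x) ∧
      ∃ (A : Set (OnePoint ℂ)) (p : ℕ) (l : ℂ) (ψ : ℂ → OnePoint ℂ) (r R : ℝ),
        SRing (Rf (ex d k x)) A p l ψ r R} = 0 := by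
  refine measure_mono_null (t := ⋃ p : ℕ, ⋃ t : Finset ℕ, ⋃ q : ℕ, SSF d k p t q) ?_
    (measure_iUnion_null fun p => measure_iUnion_null fun t => measure_iUnion_null fun q =>
      ss_nullF hd p t q)
  rintro x ⟨hF, A, p, l, ψ, r, R, hR⟩
  obtain ⟨t, q, h1, h2⟩ := ctb hR
  exact mem_iUnion.2 ⟨p, mem_iUnion.2 ⟨t, mem_iUnion.2 ⟨q, hF, A, l, ψ, r, R, hR, h1, h2⟩⟩⟩

variable {d : ℕ}

private theorem not_count {a : OnePoint ℂ} {U S : Set (OnePoint ℂ)} (hU : U ∈ 𝓝 a)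
    (hS : S.Countable) : ∃ w ∈ U, w ∉ S := by
  have hden : DenseRange ((↑) : ℂ → OnePoint ℂ) := OnePoint.denseRange_coe
  obtain ⟨V, hVU, hV, haV⟩ := _root_.mem_nhds_iff.1 hU
  obtain ⟨y, hy⟩ := hden.exists_mem_open hV ⟨a, haV⟩
  have hop : IsOpen (((↑) : ℂ → OnePoint ℂ) ⁻¹' V) := hV.preimage OnePoint.continuous_coe
  have hbad : (((↑) : ℂ → OnePoint ℂ) ⁻¹' S).Countable :=
    hS.preimage_of_injOn (OnePoint.coe_injective.injOn)
  obtain ⟨s, hsV, hsS⟩ := (hbad.dense_compl ℂ).inter_open_nonempty _ hop ⟨y, hy⟩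
  exact ⟨_, hVU hsV, hsS⟩

/-- attracted points are in the Fatou set -/
theorem att_fs_arF {v : E d} (hd : 1 ≤ d) (hcop : IsCoprime (pol v.1) (pol v.2))
    (hdeg : max (pol v.1).natDegree (pol v.2).natDegree = d) (hAR : AR v)
    {x : OnePoint ℂ} (hx : Att (Rf v) x) : x ∈ FS (Rf v) := by
  obtain ⟨a, n, hs, ht⟩ := hx
  have ha : a ∈ FS (Rf v) := by
    rcases hAR n hs.1 a hs.2.1 with h1 | ⟨ρ, κ, g, hR⟩
    · exact h1.2
    · exfalso
      obtain ⟨-, hfix, U, hU, hUc⟩ := hs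
      have hS : (⋃ k : ℕ, {z | (Rf v)^[n * k] z = a}).Countable :=
        countable_iUnion fun k => (cnt_le hd hcop hdeg (n * k) a).1.countable
      obtain ⟨w, hwU, hwS⟩ := not_count hU hS
      have h3 := ch_tend.1 (hUc w hwU) ρ hR.hρ
      obtain ⟨K, hK⟩ := eventually_atTop.1 h3
      apply hwS
      refine mem_iUnion.2 ⟨K, ?_⟩
      have hstep : ∀ k, K ≤ k → chord a ((Rf v)^[n * k] w) ≤
          κ * chord a ((Rf v)^[n * (k + 1)] w) := by
        intro k hk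
        have e : (Rf v)^[n * (k + 1)] w = (Rf v)^[n] ((Rf v)^[n * k] w) := by
          rw [← Function.iterate_add_apply]
          congr 2
          ring
        have h6 := hR.left ((Rf v)^[n * k] w) (hK k hk) (by rw [← e]; exact hK (k + 1) (by omega))
        have h7 := hR.contr ((Rf v)^[n] ((Rf v)^[n * k] w))
          (by rw [← e]; exact hK (k + 1) (by omega))
        rw [h6] at h7
        rw [e]
        exact h7
      have h6 : ∀ j : ℕ, chord a ((Rf v)^[n * K] w) ≤ κ ^ j * chord a ((Rf v)^[n * (K + j)] w) := by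
        intro j
        induction j with
        | zero => simp
        | succ j ih =>
          refine ih.trans ?_
          rw [pow_succ, mul_assoc]
          exact mul_le_mul_of_nonneg_left (hstep (K + j) (by omega)) (pow_nonneg hR.hκ j)
      have h7 : ∀ j : ℕ, chord a ((Rf v)^[n * K] w) ≤ κ ^ j * ρ := fun j =>
        (h6 j).trans (mul_le_mul_of_nonneg_left (hK (K + j) (by omega)).le (pow_nonneg hR.hκ j))
      have h8 : Tendsto (fun j : ℕ => κ ^ j * ρ) atTop (𝓝 (0 * ρ)) :=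
        (tendsto_pow_atTop_nhds_zero_of_lt_one hR.hκ hR.hκ1).mul_const _
      rw [zero_mul] at h8
      have h9 : chord a ((Rf v)^[n * K] w) ≤ 0 := ge_of_tendsto' h8 h7
      exact (chord_eqz (le_antisymm h9 (chord_nn _ _))).symm
  obtain ⟨k, hk⟩ := (ht.eventually ((Pool.Agent.H56.HR.fs_open (Rf v)).mem_nhds ha)).exists
  exact (fs_iff hd hcop hdeg _ x).1 hk


/-- THEOREM FAT in the families -/
theorem fatF {d k : ℕ} (hd : 2 ≤ d) (hk : 2 ≤ k) (hkd : k ≤ d) :
    volume {x : Em d k | IsCoprime (pol x.1) (pol x.2) ∧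
      max (pol x.1).natDegree (pol x.2).natDegree = d ∧
      FS (Rf (ex d k x)) ≠ {y | Att (Rf (ex d k x)) y}} = 0 := by
  have hsub : {x : Em d k | IsCoprime (pol x.1) (pol x.2) ∧
      max (pol x.1).natDegree (pol x.2).natDegree = d ∧
      FS (Rf (ex d k x)) ≠ {y | Att (Rf (ex d k x)) y}} ⊆
      {x : Em d k | IsCoprime (pol x.1) (pol x.2) ∧
      max (pol x.1).natDegree (pol x.2).natDegree = d ∧
      ¬ (GenM d k (pol x.1) (pol x.2) ∧
        ∀ p : ℕ, 0 < p → ∀ y μ, Cyc (pol x.1) (pol x.2) p y μ → ‖μ‖ ≠ 1)} ∪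
      {x : Em d k | Fam d k (ex d k x) ∧
      ∃ (A : Set (OnePoint ℂ)) (p : ℕ) (l : ℂ) (ψ : ℂ → OnePoint ℂ) (r R : ℝ),
        SRing (Rf (ex d k x)) A p l ψ r R} := by
    rintro x ⟨hcop, hdeg, hne⟩
    by_cases hG : GenM d k (pol x.1) (pol x.2) ∧
        ∀ p : ℕ, 0 < p → ∀ y μ, Cyc (pol x.1) (pol x.2) p y μ → ‖μ‖ ≠ 1
    · right
      have hF := fam_ex hk hkd hG.1
      have hAR := ar_m hk hkd hG.1 hG.2
      have hcop' := hF.cop
      have hdeg' := fam_deg hF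
      refine ⟨hF, ?_⟩
      by_contra hcon
      apply hne
      ext y
      constructor
      · intro hy
        by_contra hna
        obtain ⟨p, z0, b, ψ, hR⟩ := rot_of_nonatt_ar (by omega) hcop' hdeg' hAR (nw hd hcop' hdeg') hy hna
        exact hcon (ring_ex_ar hd hcop' hdeg' hAR hR)
      · exact fun hy => att_fs_arF (by omega) hcop' hdeg' hAR hy
    · left
      exact ⟨hcop, hdeg, hG⟩
  exact measure_mono_null hsub (measure_union_null (nn_m hk hkd) (h_mainF hd))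

end Pool.Agent.H56.HF
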