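import Pool.Agent.H56.HF.QVT
import Pool.Agent.H47.NM.Defs

/-!
# Module EXL: the inclusion of the family is linear
-/

set_option autoImplicit false

open Filter Topology Polynomial Metric Set MeasureTheory

namespace Pool.Agent.H56.HF

open Pool.Agent.H44.Fatou Pool.Agent.H32.BT Pool.Agent.H79.Eul Pool.Agent.H79.Par
open Pool.Agent.H79.GP Pool.Agent.H47.NM

variable {d m : ℕ}

theorem ex_add (x y : Em d m) : ex d m (x + y) = ex d m x + ex d m y := by
  refine Prod.ext rfl (funext fun i => ?_)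
  show (if h : (i : ℕ) < d - m + 1 then (x + y).2 ⟨i, h⟩ else 0) =
    (if h : (i : ℕ) < d - m + 1 then x.2 ⟨i, h⟩ else 0) + (if h : (i : ℕ) < d - m + 1 then y.2 ⟨i, h⟩ else 0)
  by_cases h : (i : ℕ) < d - m + 1
  · simp only [h, dite_true]
    rfl
  · simp only [h, dite_false]
    rw [add_zero]

theorem ex_smul (c : ℂ) (x : Em d m) : ex d m (c • x) = c • ex d m x := by
  refine Prod.ext rfl (funext fun i => ?_)
  show (if h : (i : ℕ) < d - m + 1 then (c • x).2 ⟨i, h⟩ else 0) =
    c * (if h : (i : ℕ) < d - m + 1 then x.2 ⟨i, h⟩ else 0)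
  by_cases h : (i : ℕ) < d - m + 1
  · simp only [h, dite_true]
    rfl
  · simp only [h, dite_false]
    rw [mul_zero]

theorem ex_norm (x : Em d m) : ‖ex d m x‖ ≤ ‖x‖ := by
  rw [Prod.norm_def, Prod.norm_def]
  refine max_le_max le_rfl ?_
  rw [pi_norm_le_iff_of_nonneg (norm_nonneg _)]
  intro i
  show ‖(if h : (i : ℕ) < d - m + 1 then x.2 ⟨i, h⟩ else 0)‖ ≤ _
  by_cases h : (i : ℕ) < d - m + 1
  · simp only [h, dite_true]
    exact norm_le_pi_norm x.2 _
  · simp only [h, dite_false, norm_zero]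
    exact norm_nonneg _

theorem dm_ex (hk : 2 ≤ m) (hkd : m ≤ d) {w : E d} (hw : w ∈ Dm d m) : ∃ y : Em d m, ex d m y = w := by
  refine ⟨(w.1, fun i => w.2 ⟨i, by omega⟩), ?_⟩
  refine Prod.ext rfl (funext fun i => ?_)
  unfold ex
  by_cases h : (i : ℕ) < d - m + 1
  · simp only [h, dite_true]
  · simp only [h, dite_false]
    exact (hw i (by omega)).symm

end Pool.Agent.H56.HF
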