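import Mathlib

/-!
# Module NHF: a set with holes of a definite proportion at arbitrarily small scales at each of its points is null
(NHO of H44/RG for any finite dimensional real normed space)
-/

set_option autoImplicit false

open Filter Topology Metric Set MeasureTheory

namespace Pool.Agent.H56.HF

variable {V : Type*} [NormedAddCommGroup V] [NormedSpace ℝ V] [FiniteDimensional ℝ V]
  [MeasurableSpace V] [BorelSpace V]

theorem scal (μ : Measure V) [μ.IsAddHaarMeasure] (v0 : V) (M : Set V) {r : ℝ} (hr : 0 < r) :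
    μ (ball v0 r ∩ M) / μ (ball v0 r) =
      μ (ball (0 : V) 1 ∩ {v | v0 + r • v ∈ M}) / μ (ball (0 : V) 1) := by
  have key : ∀ N : Set V, μ (ball (0 : V) 1 ∩ {v | v0 + r • v ∈ N}) =
      ENNReal.ofReal |(r ^ Module.finrank ℝ V)⁻¹| * μ (ball v0 r ∩ N) := by
    intro N
    have h1 : ball (0 : V) 1 ∩ {v | v0 + r • v ∈ N} =
        (fun v : V => r • v) ⁻¹' ((fun w : V => v0 + w) ⁻¹' (ball v0 r ∩ N)) := by
      ext v
      simp only [mem_inter_iff, mem_preimage, Set.mem_ofPred_eq, mem_ball, dist_zero_right,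
        dist_self_add_left, norm_smul, Real.norm_eq_abs, abs_of_pos hr]
      refine and_congr_left fun _ => ?_
      constructor
      · intro h
        calc r * ‖v‖ < r * 1 := mul_lt_mul_of_pos_left h hr
          _ = r := mul_one r
      · intro h
        have h2 : r * ‖v‖ < r * 1 := by rwa [mul_one]
        exact lt_of_mul_lt_mul_left h2 hr.le
    rw [h1, Measure.addHaar_preimage_smul μ hr.ne', measure_preimage_add]
  have hc0 : ENNReal.ofReal |(r ^ Module.finrank ℝ V)⁻¹| ≠ 0 := by
    rw [Ne, ENNReal.ofReal_eq_zero, not_le]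
    positivity
  have h1 := key M
  have h2 := key univ
  simp only [mem_univ, Set.ofPred_true, inter_univ] at h2
  rw [h1, h2, ENNReal.mul_div_mul_left _ _ hc0 ENNReal.ofReal_ne_top]

theorem null_holes (μ : Measure V) [μ.IsAddHaarMeasure] {S : Set V}
    (h : ∀ v ∈ S, ∃ c0 : ENNReal, 0 < c0 ∧ ∃ᶠ r in 𝓝[>] (0 : ℝ), ∃ H : Set V,
      MeasurableSet H ∧ H ⊆ ball (0 : V) 1 ∧ c0 ≤ μ H ∧ ∀ w ∈ H, v + r • w ∉ S) :
    μ S = 0 := by
  have hae := IsUnifLocDoublingMeasure.ae_tendsto_measure_inter_div μ S 1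
  rw [ae_iff] at hae
  refine measure_mono_null (t := {a | ¬ _} ∩ S) ?_ (le_antisymm
    ((Measure.le_restrict_apply S _).trans hae.le) zero_le)
  intro v hv
  refine ⟨fun hP => ?_, hv⟩
  have h1 := hP (fun _ => v) (fun r : ℝ => r) (tendsto_id : Tendsto id (𝓝[>] (0 : ℝ)) (𝓝[>] 0))
    (by
      filter_upwards [self_mem_nhdsWithin] with r hr
      have hr0 : (0 : ℝ) < r := hr
      refine mem_closedBall_self ?_
      rw [one_mul]
      exact hr0.le)
  have hb : μ (ball (0 : V) 1) ≠ 0 := (measure_ball_pos _ _ one_pos).ne'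
  have hbt : μ (ball (0 : V) 1) ≠ ⊤ := measure_ball_lt_top.ne
  obtain ⟨c0, hc0, hfr⟩ := h v hv
  have hlt : (μ (ball (0 : V) 1) - c0) / μ (ball (0 : V) 1) < 1 := by
    refine ENNReal.div_lt_of_lt_mul ?_
    rw [one_mul]
    exact ENNReal.sub_lt_self hbt hb hc0.ne'
  have hev : ∀ᶠ r in 𝓝[>] (0 : ℝ), (μ (ball (0 : V) 1) - c0) / μ (ball (0 : V) 1) <
      μ (S ∩ closedBall v r) / μ (closedBall v r) := h1.eventually_const_lt hlt
  have hev2 : ∀ᶠ r in 𝓝[>] (0 : ℝ), (0 : ℝ) < r := by
    filter_upwards [self_mem_nhdsWithin] with r hr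
    exact hr
  obtain ⟨r, ⟨H, hHm, hHb, hHc, hHS⟩, hr1, hr0⟩ := (hfr.and_eventually (hev.and hev2)).exists
  have h4 : μ (S ∩ closedBall v r) / μ (closedBall v r) =
      μ (ball (0 : V) 1 ∩ {w | v + r • w ∈ S}) / μ (ball (0 : V) 1) := by
    have hsph : μ (sphere v r) = 0 :=
      Measure.addHaar_sphere_of_ne_zero _ _ hr0.ne'
    have e1 : μ (closedBall v r) = μ (ball v r) := by
      apply le_antisymm
      · calc μ (closedBall v r) ≤ μ (ball v r ∪ sphere v r) := by rw [ball_union_sphere]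
          _ ≤ μ (ball v r) + μ (sphere v r) := measure_union_le _ _
          _ = μ (ball v r) := by rw [hsph, add_zero]
      · exact measure_mono ball_subset_closedBall
    have e2 : μ (S ∩ closedBall v r) = μ (ball v r ∩ S) := by
      apply le_antisymm
      · have e3 : S ∩ closedBall v r ⊆ (ball v r ∩ S) ∪ sphere v r := by
          rintro x ⟨hx1, hx2⟩
          rw [← ball_union_sphere] at hx2
          rcases hx2 with hx2 | hx2
          · exact Or.inl ⟨hx2, hx1⟩
          · exact Or.inr hx2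
        calc μ (S ∩ closedBall v r) ≤ μ ((ball v r ∩ S) ∪ sphere v r) :=
              measure_mono e3
          _ ≤ μ (ball v r ∩ S) + μ (sphere v r) := measure_union_le _ _
          _ = μ (ball v r ∩ S) := by rw [hsph, add_zero]
      · apply measure_mono
        rintro x ⟨hx1, hx2⟩
        exact ⟨hx2, ball_subset_closedBall hx1⟩
    rw [e1, e2, scal μ _ _ hr0]
  have h5 : μ (ball (0 : V) 1 ∩ {w | v + r • w ∈ S}) ≤
      μ (ball (0 : V) 1) - c0 := by
    have hsub : ball (0 : V) 1 ∩ {w | v + r • w ∈ S} ⊆ ball (0 : V) 1 \ H := by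
      rintro w ⟨hw1, hw2⟩
      exact ⟨hw1, fun hw => hHS w hw hw2⟩
    refine (measure_mono hsub).trans ?_
    rw [measure_sdiff hHb hHm.nullMeasurableSet
      (ne_top_of_le_ne_top hbt (measure_mono hHb))]
    exact tsub_le_tsub_left hHc _
  rw [h4] at hr1
  exact absurd (ENNReal.div_le_div_right h5 _) (not_le.2 hr1)

end Pool.Agent.H56.HF
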