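import Pool.Agent.H56.HF.QVD

/-!
# Module QVA: monotonicity of the quadratic differential (HHI of H56/HR with `QV`)
-/

set_option autoImplicit false

open Filter Topology Polynomial Metric Set MeasureTheory

namespace Pool.Agent.H56.HF

open Pool.Agent.H44.Fatou Pool.Agent.H32.BT Pool.Agent.H79.Eul Pool.Agent.H79.Par Pool.Agent.H61.TT
open Pool.Agent.H56.HR Pool.Agent.H79.GP

variable {d : ℕ} {v0 : E d} {p : ℕ} {l : ℂ} {ψ : ℂ → ℂ} {r R : ℝ}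

theorem al_y (h : Ring v0 p l ψ r R) {s : ℝ} (hs : r < s) (hs' : s < R)
    (hv : QV v0 p ψ s) :
    ∀ᵐ y : ℂ, (pol v0.2).eval y ≠ 0 → ∃ ρ : ℝ, 0 ≤ ρ ∧ ρ ≤ 1 ∧
      QQ v0 p ψ s y = (ρ : ℂ) * (dg (pol v0.1) (pol v0.2) y ^ 2 *
        QQ v0 p ψ s (gg (pol v0.1) (pol v0.2) y)) := by
  obtain ⟨q, hqm, hqe, hqf, hqp⟩ := hv
  have hal := alf h.rat hqm hqf hqp
  have h1 := null_pre h.rat (ae_iff.1 hal)
  have h2 := gam_null h hs hs'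
  have h3 := null_pre h.rat h2
  filter_upwards [measure_eq_zero_iff_ae_notMem.1 h1, measure_eq_zero_iff_ae_notMem.1 h2,
    measure_eq_zero_iff_ae_notMem.1 h3, ae_ww h.rat] with y hy1 hy2 hy3 hyw hb
  have hy1' : ¬ ¬ _ := fun hn => hy1 ⟨hb, hn⟩
  obtain ⟨-, hfib⟩ := not_not.1 hy1'
  obtain ⟨ρ, hρ0, hρ1, hρ⟩ := hfib y ((mem_fs h.rat _ _).2 ⟨hb, rfl⟩)
  refine ⟨ρ, hρ0, hρ1, ?_⟩
  have hdg : dg (pol v0.1) (pol v0.2) y ≠ 0 := (dg_ne hb).2 hyw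
  have hg : gg (pol v0.1) (pol v0.2) y ∉ Gam v0 p ψ s := fun hg => hy3 ⟨hb, hg⟩
  rw [← hqe y hy2, ← hqe _ hg]
  rw [div_eq_iff (pow_ne_zero 2 hdg)] at hρ
  rw [hρ]
  ring

theorem al_sum (h : Ring v0 p l ψ r R) {s : ℝ} (hs : r < s) (hs' : s < R)
    (hv : QV v0 p ψ s) :
    ∀ᵐ x : ℂ, ∑ y ∈ fs (pol v0.1) (pol v0.2) x,
      ‖QQ v0 p ψ s y / dg (pol v0.1) (pol v0.2) y ^ 2‖ = ‖QQ v0 p ψ s x‖ := by
  obtain ⟨q, hqm, hqe, hqf, hqp⟩ := hv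
  have hal := alf h.rat hqm hqf hqp
  have h2 := gam_null h hs hs'
  filter_upwards [hal, measure_eq_zero_iff_ae_notMem.1 h2] with x hx1 hx2
  rw [← hqe x hx2, ← hx1.1]
  refine Finset.sum_congr rfl fun y hy => ?_
  rw [hqe y]
  intro hyG
  obtain ⟨hyb, hyx⟩ := (mem_fs h.rat _ _).1 hy
  have := (gam_it h hs hs' hyG).2
  rw [hyx] at this
  exact hx2 this

theorem hh_al (h : Ring v0 p l ψ r R) {s : ℝ} (hs : r < s) (hs' : s < R)
    (hv : QV v0 p ψ s) {i : ℕ} (hi : i < p) {w : ℂ} (hw : w ∈ Ann r R)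
    (hws : ‖w‖ ≠ s) :
    ∃ ρ : ℝ, 0 ≤ ρ ∧ ρ ≤ 1 ∧ hh v0 p ψ s i w = (ρ : ℂ) * hh v0 p ψ s (i + 1) w := by
  have hal := al_y h hs hs' hv
  have hopen : IsOpen {w : ℂ | ‖w‖ ≠ s} := isOpen_ne_fun continuous_norm continuous_const
  have key : ∀ n : ℕ, ∃ u ∈ ball w (1 / ((n : ℝ) + 1)), ∃ ρ ∈ Icc (0 : ℝ) 1,
      hh v0 p ψ s i u = (ρ : ℂ) * hh v0 p ψ s (i + 1) u := by
    intro n
    obtain ⟨W, hW⟩ : ∃ W : Set ℂ, W = ball w (1 / ((n : ℝ) + 1)) ∩ Ann r R := ⟨_, rfl⟩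
    have hWo : IsOpen W := by
      rw [hW]
      exact isOpen_ball.inter (isOpen_Ann r R)
    have hWA : W ⊆ Ann r R := by
      rw [hW]
      exact inter_subset_right
    have hwW : w ∈ W := by
      rw [hW]
      exact ⟨mem_ball_self (by positivity), hw⟩
    have himo := psi_open h hi.le hWo hWA
    have hne : (psi v0 ψ i '' W).Nonempty := ⟨_, w, hwW, rfl⟩
    obtain ⟨y, hyW, hy⟩ : ∃ y ∈ psi v0 ψ i '' W, ((pol v0.2).eval y ≠ 0 → ∃ ρ : ℝ, 0 ≤ ρ ∧ ρ ≤ 1 ∧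
        QQ v0 p ψ s y = (ρ : ℂ) * (dg (pol v0.1) (pol v0.2) y ^ 2 *
        QQ v0 p ψ s (gg (pol v0.1) (pol v0.2) y))) := by
      by_contra hcon
      push Not at hcon
      have h0 : volume (psi v0 ψ i '' W) = 0 := by
        refine measure_mono_null ?_ (ae_iff.1 hal)
        intro y hy
        have := hcon y hy
        intro hc
        obtain ⟨ρ, h1, h2, h3⟩ := hc this.1
        exact this.2 ρ h1 h2 h3
      exact (himo.measure_pos volume hne).ne' h0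
    obtain ⟨u, hu, rfl⟩ := hyW
    have huA := hWA hu
    obtain ⟨ρ, hρ0, hρ1, hρ⟩ := hy (psi_b h i huA)
    refine ⟨u, ?_, ρ, ⟨hρ0, hρ1⟩, ?_⟩
    · rw [hW] at hu
      exact hu.1
    · unfold Pool.Agent.H56.HR.hh
      rw [hρ, psi_gg, psi_ds h i huA]
      ring
  choose u hu ρ hρ he using key
  have hut : Tendsto u atTop (𝓝 w) := by
    rw [Metric.tendsto_atTop]
    intro ε hε
    obtain ⟨N, hN⟩ := exists_nat_one_div_lt hε
    refine ⟨N, fun n hn => ?_⟩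
    have h1 := hu n
    rw [mem_ball] at h1
    refine h1.trans (lt_of_le_of_lt ?_ hN)
    apply one_div_le_one_div_of_le (by positivity)
    have : (N : ℝ) ≤ n := by exact_mod_cast hn
    linarith
  obtain ⟨ρ0, hρ0, φ, hφ, hlim⟩ := isCompact_Icc.tendsto_subseq hρ
  refine ⟨ρ0, hρ0.1, hρ0.2, ?_⟩
  have h1 : Tendsto (fun n => hh v0 p ψ s i (u (φ n))) atTop (𝓝 (hh v0 p ψ s i w)) :=
    ((hh_an h hs hs' hi.le hw hws).continuousAt.tendsto.comp hut).comp hφ.tendsto_atTop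
  have h2 : Tendsto (fun n => hh v0 p ψ s (i + 1) (u (φ n))) atTop (𝓝 (hh v0 p ψ s (i + 1) w)) :=
    ((hh_an h hs hs' hi hw hws).continuousAt.tendsto.comp hut).comp hφ.tendsto_atTop
  have h3 : Tendsto (fun n => ((ρ (φ n) : ℝ) : ℂ)) atTop (𝓝 ((ρ0 : ℝ) : ℂ)) :=
    (Complex.continuous_ofReal.tendsto ρ0).comp hlim
  have h4 := h3.mul h2
  refine tendsto_nhds_unique h1 (h4.congr fun n => ?_)
  exact (he (φ n)).symm

end Pool.Agent.H56.HF
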