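import Pool.Agent.H56.HF.QVA

/-!
# Module QVB: the potential vanishes on the other preimages (ZRA of H56/HR with `QV`)
-/

set_option autoImplicit false

open Filter Topology Polynomial Metric Set MeasureTheory

namespace Pool.Agent.H56.HF

open Pool.Agent.H44.Fatou Pool.Agent.H32.BT Pool.Agent.H79.Eul Pool.Agent.H79.Par Pool.Agent.H61.TT
open Pool.Agent.H56.HR Pool.Agent.H79.GP

variable {d : ℕ} {v0 : E d} {p : ℕ} {l : ℂ} {ψ : ℂ → ℂ} {r R : ℝ}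

theorem zra1 (h : Ring v0 p l ψ r R) {s : ℝ} (hs : r < s) (hs' : s < R)
    (hv : QV v0 p ψ s) {s1 s2 : ℝ} (h1 : r ≤ s1) (h2 : s2 ≤ R) {κ : ℂ}
    (hκ : ∀ i ≤ p, ∀ w ∈ Ann s1 s2, hh v0 p ψ s i w = κ) :
    ∀ᵐ y : ℂ, (pol v0.2).eval y ≠ 0 → gg (pol v0.1) (pol v0.2) y ∈ VV v0 p ψ s1 s2 →
      y ∉ VV v0 p ψ s1 s2 → QQ v0 p ψ s y = 0 := by
  have hal := al_sum h hs hs' hv
  have h3 := null_pre h.rat (ae_iff.1 hal)
  filter_upwards [measure_eq_zero_iff_ae_notMem.1 h3, ae_ww h.rat] with y hy1 hyw hb hg hyV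
  have hy1' : ¬ ¬ _ := fun hn => hy1 ⟨hb, hn⟩
  have hsum := not_not.1 hy1'
  obtain ⟨y0, hy0V, hy0f, hy0⟩ := vv_pre h (s := s) h1 h2 hκ hg
  have hne : y ≠ y0 := fun he => hyV (he ▸ hy0V)
  have hyf : y ∈ fs (pol v0.1) (pol v0.2) (gg (pol v0.1) (pol v0.2) y) :=
    (mem_fs h.rat _ _).2 ⟨hb, rfl⟩
  rw [← Finset.add_sum_erase _ _ hy0f, hy0] at hsum
  have hz : ∑ y ∈ (fs (pol v0.1) (pol v0.2) (gg (pol v0.1) (pol v0.2) y)).erase y0,
      ‖QQ v0 p ψ s y / dg (pol v0.1) (pol v0.2) y ^ 2‖ = 0 := by linarith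
  have h4 := (Finset.sum_eq_zero_iff_of_nonneg (fun _ _ => norm_nonneg _)).1 hz y
    (Finset.mem_erase.2 ⟨hne, hyf⟩)
  have hdg : dg (pol v0.1) (pol v0.2) y ≠ 0 := (dg_ne hb).2 hyw
  rw [norm_eq_zero, div_eq_zero_iff] at h4
  rcases h4 with h4 | h4
  · exact h4
  · exact absurd h4 (pow_ne_zero 2 hdg)

theorem zra2 (h : Ring v0 p l ψ r R) {s : ℝ} (hs : r < s) (hs' : s < R)
    (hv : QV v0 p ψ s) {s1 s2 : ℝ} (h1 : r ≤ s1) (h2 : s2 ≤ R) {κ : ℂ}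
    (hκ : ∀ i ≤ p, ∀ w ∈ Ann s1 s2, hh v0 p ψ s i w = κ) :
    ∀ᵐ y : ℂ, ∀ n : ℕ, (∀ j ≤ n, ev v0.2 (it v0 j y) ≠ 0) → it v0 (n + 1) y ∈ VV v0 p ψ s1 s2 →
      it v0 n y ∉ VV v0 p ψ s1 s2 → QQ v0 p ψ s y = 0 := by
  have hboth := (al_y h hs hs' hv).and (zra1 h hs hs' hv h1 h2 hκ)
  obtain ⟨G, hG⟩ : ∃ G : Set ℂ, G = {y | ¬ (((pol v0.2).eval y ≠ 0 → ∃ ρ : ℝ, 0 ≤ ρ ∧ ρ ≤ 1 ∧
      QQ v0 p ψ s y = (ρ : ℂ) * (dg (pol v0.1) (pol v0.2) y ^ 2 *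
        QQ v0 p ψ s (gg (pol v0.1) (pol v0.2) y))) ∧ ((pol v0.2).eval y ≠ 0 →
      gg (pol v0.1) (pol v0.2) y ∈ VV v0 p ψ s1 s2 → y ∉ VV v0 p ψ s1 s2 → QQ v0 p ψ s y = 0))} :=
    ⟨_, rfl⟩
  have hG0 : volume G = 0 := by
    rw [hG]
    exact hboth
  have hgg : ∀ z : ℂ, it v0 1 z = gg (pol v0.1) (pol v0.2) z := by
    intro z
    show ev v0.1 z / ev v0.2 z = _
    rw [ev_pol, ev_pol]
    rfl
  have hT : ∀ n : ℕ, volume {y : ℂ | (∀ j < n, ev v0.2 (it v0 j y) ≠ 0) ∧ it v0 n y ∈ G} = 0 := by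
    intro n
    induction n with
    | zero =>
      refine measure_mono_null ?_ hG0
      rintro y ⟨-, hy⟩
      exact hy
    | succ n ih =>
      refine measure_mono_null ?_ (null_pre h.rat ih)
      rintro y ⟨hy1, hy2⟩
      have e : ∀ j, it v0 j (gg (pol v0.1) (pol v0.2) y) = it v0 (j + 1) y := by
        intro j
        rw [it_add, hgg]
      refine ⟨?_, ?_, ?_⟩
      · have h3 := hy1 0 (Nat.succ_pos n)
        rw [ev_pol] at h3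
        exact h3
      · intro j hj
        rw [e]
        exact hy1 (j + 1) (by omega)
      · rw [e]
        exact hy2
  have hall : ∀ᵐ y : ℂ, ∀ n : ℕ, y ∉ {y : ℂ | (∀ j < n, ev v0.2 (it v0 j y) ≠ 0) ∧ it v0 n y ∈ G} := by
    rw [ae_all_iff]
    intro n
    exact measure_eq_zero_iff_ae_notMem.1 (hT n)
  filter_upwards [hall] with y hy n hpole hin hout
  have hgood : ∀ k ≤ n, it v0 k y ∉ G := fun k hk hkG =>
    hy k ⟨fun j hj => hpole j (by omega), hkG⟩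
  have hgg2 : ∀ k, gg (pol v0.1) (pol v0.2) (it v0 k y) = it v0 (k + 1) y := by
    intro k
    rw [← hgg, ← it_add, Nat.add_comm]
  have hbk : ∀ k ≤ n, (pol v0.2).eval (it v0 k y) ≠ 0 := by
    intro k hk
    rw [← ev_pol]
    exact hpole k hk
  have hstart : QQ v0 p ψ s (it v0 n y) = 0 := by
    have h3 := hgood n le_rfl
    rw [hG] at h3
    have h4 := (not_not.1 h3).2 (hbk n le_rfl)
    rw [hgg2] at h4
    exact h4 hin hout
  have hdesc : ∀ m ≤ n, QQ v0 p ψ s (it v0 (n - m) y) = 0 := by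
    intro m
    induction m with
    | zero => intro _; exact hstart
    | succ m ih =>
      intro hm
      have h3 := hgood (n - (m + 1)) (by omega)
      rw [hG] at h3
      obtain ⟨ρ, -, -, h4⟩ := (not_not.1 h3).1 (hbk _ (by omega))
      have e : n - (m + 1) + 1 = n - m := by omega
      rw [h4, hgg2, e, ih (by omega), mul_zero, mul_zero]
  have h5 := hdesc n le_rfl
  rw [Nat.sub_self] at h5
  exact h5

end Pool.Agent.H56.HF
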