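import Pool.Agent.H56.HR.HOL
import Pool.Agent.H79.GP.GTF

/-!
# THEOREM H in the families with a superattracting fixed point at infinity: the potential

`QV`: the potential has an integrable version which is invariant under the push forward. `qv_fam`: this holds if the mean drift
vanishes in all directions of the family (copies of PSH, QFN of H56/HR with the degrees `2 d - m`).
-/

set_option autoImplicit false

open Filter Topology Polynomial Metric Set MeasureTheory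

namespace Pool.Agent.H56.HF

open Pool.Agent.H44.Fatou Pool.Agent.H32.BT Pool.Agent.H79.Eul Pool.Agent.H79.Par Pool.Agent.H61.TT
open Pool.Agent.H56.HR Pool.Agent.H79.GP

/-- the potential has an integrable and invariant version -/
def QV {d : ℕ} (v0 : E d) (p : ℕ) (ψ : ℂ → ℂ) (s : ℝ) : Prop :=
  ∃ q : ℂ → ℂ, Measurable q ∧ (∀ x ∉ Gam v0 p ψ s, q x = QQ v0 p ψ s x) ∧
      ∫⁻ x, ‖q x‖ₑ ≠ ⊤ ∧
      ∀ᵐ x : ℂ, q x = ∑ y ∈ fs (pol v0.1) (pol v0.2) x, q y / dg (pol v0.1) (pol v0.2) y ^ 2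

variable {d m : ℕ} {v0 : E d} {p : ℕ} {l : ℂ} {ψ : ℂ → ℂ} {r R : ℝ}

theorem la_vanF (h : Ring v0 p l ψ r R) (hF : Fam d m v0) {s : ℝ}
    (hv : ∀ w ∈ Dm d m, LA v0 p ψ s (xi v0 w) = 0)
    {η : Polynomial ℂ} (hη : η.natDegree ≤ 2 * d - m) :
    LA v0 p ψ s (fun z => η.eval z / (pol v0.2).eval z ^ 2) = 0 := by
  obtain ⟨w, hw, hv'⟩ := xi_surjm h.rat.hd hF hη
  have : (fun z => η.eval z / (pol v0.2).eval z ^ 2) = xi v0 w := funext fun z => (hv' z).symm
  rw [this]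
  exact hv w hw

private theorem psh_degF (h : Ring v0 p l ψ r R) (hF : Fam d m v0) :
    (ww (pol v0.1) (pol v0.2)).natDegree + 1 ≤ 2 * d - m := by
  have h1 := hF.hb
  have h2 := hF.hm
  have h3 := hF.hmd
  have h4 := natDegree_wwm (a := pol v0.1) (b := pol v0.2) h.rat.hd hF.hmd hF.ha.le (by omega)
  omega

theorem mom0F (h : Ring v0 p l ψ r R) {s : ℝ} (hs : r < s) (hs' : s < R) (hF : Fam d m v0)
    (hv : ∀ w ∈ Dm d m, LA v0 p ψ s (xi v0 w) = 0) : MM v0 p ψ s (fun _ => 1) = 0 := by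
  rw [← la_dg h hs hs' (fun _ => 1)]
  have h1 := la_vanF h hF hv (η := ww (pol v0.1) (pol v0.2)) (by have := psh_degF h hF; omega)
  rw [← h1]
  congr 1
  funext z
  rw [mul_one]
  rfl

theorem mom1F (h : Ring v0 p l ψ r R) {s : ℝ} (hs : r < s) (hs' : s < R) (hF : Fam d m v0)
    (hv : ∀ w ∈ Dm d m, LA v0 p ψ s (xi v0 w) = 0) : MM v0 p ψ s (fun z => z) = 0 := by
  rw [← la_dg h hs hs' (fun z => z)]
  have h1 := la_vanF h hF hv (η := ww (pol v0.1) (pol v0.2) * X) (by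
    refine natDegree_mul_le.trans ?_
    rw [natDegree_X]
    exact psh_degF h hF)
  rw [← h1]
  congr 1
  funext z
  rw [eval_mul, eval_X]
  unfold Pool.Agent.H61.TT.dg
  ring

theorem pshF (h : Ring v0 p l ψ r R) {s : ℝ} (hs : r < s) (hs' : s < R) (hF : Fam d m v0)
    (hv : ∀ w ∈ Dm d m, LA v0 p ψ s (xi v0 w) = 0) {x : ℂ} (hx : RegV d (pol v0.1) (pol v0.2) x)
    (hxG : x ∉ Gam v0 p ψ s) :
    QQ v0 p ψ s x = ∑ y ∈ fs (pol v0.1) (pol v0.2) x, QQ v0 p ψ s y / dg (pol v0.1) (pol v0.2) y ^ 2 := by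
  have hb1 := hF.hb
  have hb2 := hF.hm
  have hb3 := hF.hmd
  obtain ⟨η, hη, hl⟩ := lagn h.rat (by omega : 1 ≤ m) hF.hmd (by omega) hx
  have hgx : ∀ z ∈ Gam v0 p ψ s, gg (pol v0.1) (pol v0.2) z ≠ x := fun z hz he =>
    hxG (he ▸ (gam_it h hs hs' hz).2)
  have hyG : ∀ y ∈ fs (pol v0.1) (pol v0.2) x, y ∉ Gam v0 p ψ s := by
    intro y hy hG
    obtain ⟨-, hyx⟩ := (mem_fs h.rat _ _).1 hy
    exact hgx y hG hyx
  have hcy : ∀ y : ℂ, y ∉ Gam v0 p ψ s →
      ContinuousOn (fun z : ℂ => 1 / (y - z)) (Gam v0 p ψ s) := by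
    intro y hy
    refine continuousOn_const.div (continuousOn_const.sub continuousOn_id) ?_
    intro z hz h0
    exact hy ((sub_eq_zero.1 h0) ▸ hz)
  have hggc : ContinuousOn (gg (pol v0.1) (pol v0.2)) (Gam v0 p ψ s) := fun z hz =>
    (hasDerivAt_gg (gam_it h hs hs' hz).1).continuousAt.continuousWithinAt
  have hc1 : ContinuousOn (fun z => 1 / (x - gg (pol v0.1) (pol v0.2) z)) (Gam v0 p ψ s) := by
    refine continuousOn_const.div (continuousOn_const.sub hggc) ?_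
    intro z hz h0
    exact hgx z hz (sub_eq_zero.1 h0).symm
  have hc2 : ContinuousOn (fun z => η.eval z / (pol v0.2).eval z ^ 2) (Gam v0 p ψ s) := by
    refine η.continuous.continuousOn.div ((pol v0.2).continuous.continuousOn.pow 2) ?_
    intro z hz
    exact pow_ne_zero 2 (gam_it h hs hs' hz).1
  have e1 : LA v0 p ψ s (fun z => dg (pol v0.1) (pol v0.2) z *
      ∑ y ∈ fs (pol v0.1) (pol v0.2) x, (1 / dg (pol v0.1) (pol v0.2) y ^ 2) * (1 / (y - z))) =
      LA v0 p ψ s (fun z => 1 / (x - gg (pol v0.1) (pol v0.2) z) +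
        η.eval z / (pol v0.2).eval z ^ 2) := by
    refine la_congr h hs hs' fun z hz => ?_
    rw [← hl z (gam_it h hs hs' hz).1 (hgx z hz), Finset.mul_sum]
    refine Finset.sum_congr rfl fun y _ => ?_
    simp only [div_eq_mul_inv, mul_inv]
    ring
  rw [la_dg h hs hs', la_add h hs hs' hc1 hc2, la_vanF h hF hv hη, add_zero,
    la_gg h hs hs' (g := fun z => 1 / (x - z)) (hcy x hxG)] at e1
  rw [mm_sum h hs hs' _ (fun y => 1 / dg (pol v0.1) (pol v0.2) y ^ 2)
    (g := fun y z => 1 / (y - z)) (fun y hy => hcy y (hyG y hy))] at e1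
  have e2 : QQ v0 p ψ s x = MM v0 p ψ s (fun z => 1 / (x - z)) := rfl
  rw [e2, ← e1]
  refine Finset.sum_congr rfl fun y _ => ?_
  have e3 : QQ v0 p ψ s y = MM v0 p ψ s (fun z => 1 / (y - z)) := rfl
  rw [e3]
  ring

/-- there is a measurable function which agrees with the potential outside the curves, is integrable and invariant -/
theorem qv_fam (h : Ring v0 p l ψ r R) {s : ℝ} (hs : r < s) (hs' : s < R) (hF : Fam d m v0)
    (hv : ∀ w ∈ Dm d m, LA v0 p ψ s (xi v0 w) = 0) :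
    QV v0 p ψ s := by
  obtain ⟨c, φ, hc, hφ, hG, hq, h0, h1⟩ := qq_gpo h hs hs'
  refine ⟨gpo p c φ, gpo_meas hc hφ, fun x hx => (hq x hx).symm, gpo_fin hc hφ ?_ ?_, ?_⟩
  · rw [h0]
    exact mom0F h hs hs' hF hv
  · rw [h1]
    exact mom1F h hs hs' hF hv
  · have h2 : ∀ᵐ x : ℂ, RegV d (pol v0.1) (pol v0.2) x := (reg_finite h.rat).measure_zero volume
    have h3 : ∀ᵐ x : ℂ, x ∉ Gam v0 p ψ s := by
      rw [ae_iff]
      have h4 : {x : ℂ | ¬ x ∉ Gam v0 p ψ s} = Gam v0 p ψ s := by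
        ext x
        rw [mem_ofPred_eq, not_not]
      rw [h4]
      exact gam_null h hs hs'
    filter_upwards [h2, h3] with x hx hxG
    rw [← hq x hxG, pshF h hs hs' hF hv hx hxG]
    refine Finset.sum_congr rfl fun y hy => ?_
    rw [hq y]
    intro hyG
    have h4 := (mem_fs h.rat x y).1 hy
    have h5 := (gam_it h hs hs' hyG).2
    rw [h4.2] at h5
    exact hxG h5


end Pool.Agent.H56.HF
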