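import Pool.Agent.H56.RD.SDC
import Pool.Agent.H47.RJ.REP

/-!
# Module RDA: rotation domains of maps all of whose cycles are attracting or repelling (SNP, SPU of H56/RD with `AR`)
-/

set_option autoImplicit false

open Filter Topology Polynomial Metric Set MeasureTheory

namespace Pool.Agent.H56.HF

open Pool.Agent.H44.Fatou Pool.Agent.H32.BT Pool.Agent.H79.Eul Pool.Agent.H79.Par
open Pool.Agent.H35.EX Pool.Agent.H44.RR Pool.Agent.H56.HR Pool.Agent.H44.RC Pool.Agent.H47.RJ Pool.Agent.H56.RD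

variable {d : ℕ} {v : E d}

private theorem snp_inf {x : OnePoint ℂ} {U : Set (OnePoint ℂ)} (hU : U ∈ 𝓝 x) : U.Infinite := by
  have h : (𝓝[≠] x).NeBot := by
    induction x using OnePoint.rec with
    | infty => infer_instance
    | coe z => infer_instance
  exact infinite_of_mem_nhds x hU

theorem no_per (hd : 1 ≤ d) (hcop : IsCoprime (pol v.1) (pol v.2))
    (hdeg : max (pol v.1).natDegree (pol v.2).natDegree = d) (hN : AR v)
    {A : Set (OnePoint ℂ)} {p : ℕ} {b : ℕ → ℕ} (h : Cyl (Rf v) A p b) :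
    ∀ m : ℕ, 0 < m → ∀ x ∈ A, ((Rf v)^[p])^[m] x ≠ x := by
  intro m hm a ha hfix
  have hf : Continuous (Rf v) := rat_continuous hcop
  obtain ⟨P, hPe⟩ : ∃ P, P = p * m := ⟨_, rfl⟩
  have hP : 0 < P := by
    rw [hPe]
    exact Nat.mul_pos h.hp hm
  have hPa : (Rf v)^[P] a = a := by
    rw [hPe, Function.iterate_mul]
    exact hfix
  rcases hN _ hP _ hPa with ⟨hs, -⟩ | ⟨ρ, κ, g, hR⟩
  · obtain ⟨-, -, U, hU, hUc⟩ := hs
    have hsub : U ∩ A ⊆ (fun r : ℕ => (Rf v)^[p * r] a) '' (Finset.range m : Set ℕ) := by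
      rintro y ⟨hyU, hyA⟩
      have h1 : ∃ r < m, ∃ᶠ k in atTop, b k % m = r := by
        by_contra hcon
        push Not at hcon
        have h2 : ∀ᶠ k in atTop, ∀ r ∈ Finset.range m, b k % m ≠ r := by
          rw [Filter.eventually_all_finset]
          intro r hr
          exact hcon r (Finset.mem_range.1 hr)
        obtain ⟨k, hk⟩ := h2.exists
        exact hk (b k % m) (Finset.mem_range.2 (Nat.mod_lt _ hm)) rfl
      obtain ⟨r, hr, hfr⟩ := h1
      obtain ⟨φ, hφ, hφr⟩ := Filter.extraction_of_frequently_atTop hfr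
      refine ⟨r, Finset.mem_coe.2 (Finset.mem_range.2 hr), ?_⟩
      have h2 : Tendsto (fun k => ((Rf v)^[p])^[b (φ k)] y) atTop (𝓝 y) :=
        (h.id y hyA).comp (hφ.tendsto_atTop.prodMk (tendsto_const_nhds (x := y)))
      have h3 : Tendsto (fun k => b (φ k) / m) atTop atTop := by
        rw [Filter.tendsto_atTop]
        intro N
        filter_upwards [(h.tb.comp hφ.tendsto_atTop).eventually_ge_atTop (N * m)] with k hk
        exact (Nat.le_div_iff_mul_le hm).2 hk
      have h4 : Tendsto (fun k => (Rf v)^[p * r] ((Rf v)^[P * (b (φ k) / m)] y)) atTop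
          (𝓝 ((Rf v)^[p * r] a)) :=
        ((hf.iterate (p * r)).tendsto a).comp ((hUc y hyU).comp h3)
      have h5 : ∀ k, ((Rf v)^[p])^[b (φ k)] y =
          (Rf v)^[p * r] ((Rf v)^[P * (b (φ k) / m)] y) := by
        intro k
        rw [← Function.iterate_mul, ← Function.iterate_add_apply]
        congr 1
        have h6 := Nat.div_add_mod (b (φ k)) m
        rw [hφr k] at h6
        rw [hPe]
        calc p * b (φ k) = p * (m * (b (φ k) / m) + r) := by rw [h6]
          _ = p * r + p * m * (b (φ k) / m) := by ring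
      exact tendsto_nhds_unique (h4.congr fun k => (h5 k).symm) h2
    have hfin : (U ∩ A).Finite := (((Finset.range m).finite_toSet).image _).subset hsub
    exact snp_inf (inter_mem hU (h.op.mem_nhds ha)) hfin
  · have hρ := hR.hρ
    have hκ := hR.hκ
    have hκ1 := hR.hκ1
    have hE : EqAt (Rf v) a := interior_subset (h.sub ha)
    have h2 := hE (ρ / 2) (by linarith)
    have h3 : ∀ᶠ y in 𝓝[≠] a, ∀ n : ℕ,
        chord ((Rf v)^[n] a) ((Rf v)^[n] y) < ρ / 2 := h2.filter_mono nhdsWithin_le_nhds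
    have hne : (𝓝[≠] a).NeBot := by
      clear * -
      induction a using OnePoint.rec with
      | infty => infer_instance
      | coe z => infer_instance
    obtain ⟨y, hy1, hy2⟩ := (h3.and self_mem_nhdsWithin).exists
    have hfixk : ∀ j : ℕ, (Rf v)^[P * j] a = a := by
      intro j
      rw [Function.iterate_mul]
      exact Function.iterate_fixed hPa j
    have h4 : ∀ j : ℕ, chord a ((Rf v)^[P * j] y) < ρ / 2 := by
      intro j
      have h5 := hy1 (P * j)
      rw [hfixk] at h5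
      exact h5
    have h5 : ∀ j : ℕ, chord a ((Rf v)^[P * j] y) ≤
        κ * chord a ((Rf v)^[P * (j + 1)] y) := by
      intro j
      have e : (Rf v)^[P * (j + 1)] y = (Rf v)^[P] ((Rf v)^[P * j] y) := by
        rw [← Function.iterate_add_apply]
        congr 2
        ring
      have h6 := hR.left ((Rf v)^[P * j] y) ((h4 j).trans (by linarith))
        (by rw [← e]; exact (h4 (j + 1)).trans (by linarith))
      have h7 := hR.contr ((Rf v)^[P] ((Rf v)^[P * j] y))
        (by rw [← e]; exact (h4 (j + 1)).trans (by linarith))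
      rw [h6] at h7
      rw [e]
      exact h7
    have h6 : ∀ j : ℕ, chord a y ≤ κ ^ j * (ρ / 2) := by
      have h7 : ∀ j : ℕ, chord a y ≤ κ ^ j * chord a ((Rf v)^[P * j] y) := by
        intro j
        induction j with
        | zero => simp
        | succ j ih =>
          refine ih.trans ?_
          rw [pow_succ, mul_assoc]
          exact mul_le_mul_of_nonneg_left (h5 j) (pow_nonneg hκ j)
      exact fun j => (h7 j).trans (mul_le_mul_of_nonneg_left (h4 j).le (pow_nonneg hκ j))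
    have h7 : Tendsto (fun j : ℕ => κ ^ j * (ρ / 2)) atTop (𝓝 (0 * (ρ / 2))) :=
      (tendsto_pow_atTop_nhds_zero_of_lt_one hκ hκ1).mul_const _
    rw [zero_mul] at h7
    have h8 : chord a y ≤ 0 := ge_of_tendsto' h7 h6
    exact hy2 (chord_eqz (le_antisymm h8 (chord_nn _ _))).symm


theorem no_punct (hd : 1 ≤ d) (hcop : IsCoprime (pol v.1) (pol v.2))
    (hdeg : max (pol v.1).natDegree (pol v.2).natDegree = d) (hN : AR v)
    {p : ℕ} (hp : 0 < p) {G : ℂ → OnePoint ℂ} {l : ℂ} {ρ : ℝ} (hρ : 0 < ρ) (hl : ‖l‖ = 1)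
    (hG : ContinuousOn G (ball 0 ρ)) (hi : ∀ w ∈ ball (0 : ℂ) ρ, w ≠ 0 → G w ≠ G 0)
    (hF : ∀ w ∈ ball (0 : ℂ) ρ, w ≠ 0 → (Rf v)^[p] (G w) = G (l * w)) : False := by
  have hfc : Continuous (Rf v) := rat_continuous hcop
  have hQc : Continuous (Rf v)^[p] := hfc.iterate p
  have h0b : (0 : ℂ) ∈ ball (0 : ℂ) ρ := mem_ball_self hρ
  have hbn : ball (0 : ℂ) ρ ∈ 𝓝 (0 : ℂ) := ball_mem_nhds 0 hρ
  have hG0 : Tendsto G (𝓝 0) (𝓝 (G 0)) := (hG.continuousAt hbn).tendsto
  have hl0 : l ≠ 0 := by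
    intro h
    rw [h, norm_zero] at hl
    exact zero_ne_one hl
  -- the fixed point
  have hfix : (Rf v)^[p] (G 0) = G 0 := by
    have h1 : Tendsto (fun w => (Rf v)^[p] (G w)) (𝓝[≠] (0 : ℂ)) (𝓝 ((Rf v)^[p] (G 0))) :=
      (hQc.tendsto _).comp (hG0.mono_left nhdsWithin_le_nhds)
    have h2 : Tendsto (fun w => G (l * w)) (𝓝[≠] (0 : ℂ)) (𝓝 (G 0)) := by
      have h3 : Tendsto (fun w : ℂ => l * w) (𝓝 0) (𝓝 0) := by
        have : Continuous (fun w : ℂ => l * w) := by fun_prop
        have h4 := this.tendsto 0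
        rwa [mul_zero] at h4
      exact (hG0.comp h3).mono_left nhdsWithin_le_nhds
    refine tendsto_nhds_unique_of_eventuallyEq h1 h2 ?_
    have h3 : ∀ᶠ w in 𝓝[≠] (0 : ℂ), w ∈ ball (0 : ℂ) ρ := nhdsWithin_le_nhds hbn
    filter_upwards [h3, self_mem_nhdsWithin] with w hw hw0
    exact hF w hw hw0
  have hit : ∀ w ∈ ball (0 : ℂ) ρ, w ≠ 0 → ∀ j : ℕ, ((Rf v)^[p])^[j] (G w) = G (l ^ j * w) ∧
      l ^ j * w ∈ ball (0 : ℂ) ρ ∧ l ^ j * w ≠ 0 ∧ ‖l ^ j * w‖ = ‖w‖ := by
    intro w hw hw0 j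
    have hn : ‖l ^ j * w‖ = ‖w‖ := by
      rw [norm_mul, norm_pow, hl, one_pow, one_mul]
    refine ⟨?_, ?_, mul_ne_zero (pow_ne_zero j hl0) hw0, hn⟩
    · induction j with
      | zero => simp
      | succ j ih =>
        have hn' : ‖l ^ j * w‖ = ‖w‖ := by
          rw [norm_mul, norm_pow, hl, one_pow, one_mul]
        rw [Function.iterate_succ_apply', ih hn', hF _ (by
          rw [mem_ball_zero_iff, hn']
          exact mem_ball_zero_iff.1 hw) (mul_ne_zero (pow_ne_zero j hl0) hw0)]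
        congr 1
        ring
    · rw [mem_ball_zero_iff, hn]
      exact mem_ball_zero_iff.1 hw
  rcases hN _ hp _ hfix with ⟨hs, -⟩ | ⟨ρ', κ, g, hR⟩
  · obtain ⟨-, -, U, hU, hUa⟩ := hs
    obtain ⟨δ, hδ, hδU⟩ := Metric.mem_nhds_iff.1 (hG0 hU)
    obtain ⟨s, hs⟩ : ∃ s : ℝ, s = min δ ρ / 2 := ⟨_, rfl⟩
    have hs0 : 0 < s := by
      rw [hs]
      have := lt_min hδ hρ
      linarith
    have hsδ : s < δ := by
      rw [hs]
      have := lt_min hδ hρ
      have := min_le_left δ ρ
      linarith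
    have hsρ : s < ρ := by
      rw [hs]
      have := lt_min hδ hρ
      have := min_le_right δ ρ
      linarith
    have hns : ‖((s : ℝ) : ℂ)‖ = s := by
      rw [Complex.norm_real, Real.norm_eq_abs, abs_of_pos hs0]
    have hw : ((s : ℝ) : ℂ) ∈ ball (0 : ℂ) ρ := by
      rw [mem_ball_zero_iff, hns]
      exact hsρ
    have hw0 : ((s : ℝ) : ℂ) ≠ 0 := by
      rw [← norm_pos_iff, hns]
      exact hs0
    have hwU : G s ∈ U := hδU (by
      rw [mem_ball_zero_iff, hns]
      exact hsδ)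
    have h1 := hUa _ hwU
    have hsub : sphere (0 : ℂ) s ⊆ ball (0 : ℂ) ρ := by
      intro w hw
      rw [mem_sphere_zero_iff_norm] at hw
      rw [mem_ball_zero_iff, hw]
      exact hsρ
    have hK : IsClosed (G '' sphere (0 : ℂ) s) :=
      ((isCompact_sphere (0 : ℂ) s).image_of_continuousOn (hG.mono hsub)).isClosed
    have hKa : G 0 ∉ G '' sphere (0 : ℂ) s := by
      rintro ⟨w, hw, hwa⟩
      refine hi w (hsub hw) ?_ hwa
      rw [mem_sphere_zero_iff_norm] at hw
      rw [← norm_pos_iff, hw]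
      exact hs0
    obtain ⟨k, hk⟩ := (h1.eventually (hK.isOpen_compl.mem_nhds hKa)).exists
    apply hk
    have h2 := hit _ hw hw0 k
    rw [Function.iterate_mul, h2.1]
    refine ⟨_, ?_, rfl⟩
    rw [mem_sphere_zero_iff_norm, h2.2.2.2, hns]
  · have h1 := (Pool.Agent.H47.RJ.ch_tend.1 hG0) ρ' hR.hρ
    obtain ⟨δ, hδ, hδU⟩ := Metric.eventually_nhds_iff.1 h1
    obtain ⟨s, hs⟩ : ∃ s : ℝ, s = min δ ρ / 2 := ⟨_, rfl⟩
    have hs0 : 0 < s := by
      rw [hs]
      have := lt_min hδ hρ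
      linarith
    have hsδ : s < δ := by
      rw [hs]
      have := lt_min hδ hρ
      have := min_le_left δ ρ
      linarith
    have hsρ : s < ρ := by
      rw [hs]
      have := lt_min hδ hρ
      have := min_le_right δ ρ
      linarith
    have hns : ‖((s : ℝ) : ℂ)‖ = s := by
      rw [Complex.norm_real, Real.norm_eq_abs, abs_of_pos hs0]
    have hw : ((s : ℝ) : ℂ) ∈ ball (0 : ℂ) ρ := by
      rw [mem_ball_zero_iff, hns]
      exact hsρ
    have hw0 : ((s : ℝ) : ℂ) ≠ 0 := by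
      rw [← norm_pos_iff, hns]
      exact hs0
    have hsm : ∀ j : ℕ, chord (G 0) (G (l ^ j * s)) < ρ' := by
      intro j
      refine hδU ?_
      rw [dist_zero_right, (hit _ hw hw0 j).2.2.2, hns]
      exact hsδ
    have hstep : ∀ j : ℕ, chord (G 0) (G (l ^ j * s)) ≤ κ * chord (G 0) (G (l ^ (j + 1) * s)) := by
      intro j
      have h2 := hit _ hw hw0 j
      have h3 : (Rf v)^[p] (G (l ^ j * s)) = G (l ^ (j + 1) * s) := by
        rw [hF _ h2.2.1 h2.2.2.1]
        congr 1
        ring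
      have h4 := hR.left (G (l ^ j * s)) (hsm j) (by rw [h3]; exact hsm (j + 1))
      have h5 := hR.contr (G (l ^ (j + 1) * s)) (hsm (j + 1))
      rw [← h3, h4] at h5
      rw [← h3]
      exact h5
    have hall : ∀ j : ℕ, chord (G 0) (G (l ^ 0 * s)) ≤ κ ^ j * ρ' := by
      intro j
      have h6 : ∀ j : ℕ, chord (G 0) (G (l ^ 0 * s)) ≤ κ ^ j * chord (G 0) (G (l ^ j * s)) := by
        intro j
        induction j with
        | zero => simp
        | succ j ih =>
          refine ih.trans ?_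
          calc κ ^ j * chord (G 0) (G (l ^ j * s)) ≤
              κ ^ j * (κ * chord (G 0) (G (l ^ (j + 1) * s))) :=
                mul_le_mul_of_nonneg_left (hstep j) (pow_nonneg hR.hκ j)
            _ = κ ^ (j + 1) * chord (G 0) (G (l ^ (j + 1) * s)) := by ring
      exact (h6 j).trans (mul_le_mul_of_nonneg_left (hsm j).le (pow_nonneg hR.hκ j))
    have hle : chord (G 0) (G (l ^ 0 * s)) ≤ 0 := by
      have h7 : Tendsto (fun j : ℕ => κ ^ j * ρ') atTop (𝓝 0) := by
        have := (tendsto_pow_atTop_nhds_zero_of_lt_one hR.hκ hR.hκ1).mul_const ρ'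
        rwa [zero_mul] at this
      exact ge_of_tendsto' h7 hall
    have h8 : chord (G 0) (G (l ^ 0 * s)) = 0 := le_antisymm hle (Pool.Agent.H44.RR.chord_nn _ _)
    have h9 := Pool.Agent.H44.RR.chord_eqz h8
    refine hi _ hw hw0 ?_
    rw [pow_zero, one_mul] at h9
    exact h9.symm

end Pool.Agent.H56.HF
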